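import Pool.Agent.Lib.MP_d4c35b_ag.TG.Basic

set_option linter.unusedSectionVars false

open Function Set

namespace MP_d4c35b_ag.TG

variable {E : Type} [NormedAddCommGroup E] [NormedSpace ℂ E] [FiniteDimensional ℂ E]

/-- product of functionals -/
noncomputable def tpm {p : ℕ} (f : Fin p → E →ₗ[ℂ] ℂ) : MM E (Fin p) :=
  (MultilinearMap.mkPiAlgebra ℂ (Fin p) ℂ).compLinearMap f

theorem tpm_apply {p : ℕ} (f : Fin p → E →ₗ[ℂ] ℂ) (v : Fin p → E) :
    tpm f v = ∏ i, f i (v i) := by simp [tpm]

theorem mm_mod {p : ℕ} (m : MM E (Fin p)) (K : Submodule ℂ E)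
    (hK : ∀ (v : Fin p → E) (j : Fin p), v j ∈ K → m v = 0) (v v' : Fin p → E)
    (h : ∀ i, v i - v' i ∈ K) : m v = m v' := by
  classical
  have h1 : v = v' + (v - v') := by abel
  conv_lhs => rw [h1]
  rw [MultilinearMap.map_add_univ]
  rw [Finset.sum_eq_single (Finset.univ : Finset (Fin p))]
  · congr 1
    funext i
    simp
  · intro s _ hs
    obtain ⟨j, hj⟩ : ∃ j, j ∉ s := by
      by_contra hcon
      push Not at hcon
      exact hs (Finset.eq_univ_iff_forall.mpr hcon)
    refine hK _ j ?_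
    rw [Finset.piecewise_eq_of_notMem _ _ _ hj]
    exact h j
  · intro h2
    exact absurd (Finset.mem_univ _) h2

theorem la1 {p : ℕ} (A : Submodule ℂ (E →ₗ[ℂ] ℂ)) (m : MM E (Fin p))
    (h : ∀ (j : Fin p) (v : Fin p → E), ∃ f ∈ A, ∀ u, f u = m (Function.update v j u)) :
    m ∈ Submodule.span ℂ {t : MM E (Fin p) | ∃ f : Fin p → E →ₗ[ℂ] ℂ,
      (∀ i, f i ∈ A) ∧ t = tpm f} := by
  classical
  set K : Submodule ℂ E := Submodule.dualCoannihilator A with hKdef
  have hK : ∀ (v : Fin p → E) (j : Fin p), v j ∈ K → m v = 0 := by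
    intro v j hj
    obtain ⟨f, hf, hfu⟩ := h j v
    have h1 := hfu (v j)
    rw [Function.update_eq_self] at h1
    rw [← h1]
    exact (Submodule.mem_dualCoannihilator _).mp hj f hf
  obtain ⟨C, hC⟩ := K.exists_isCompl
  set P : E →ₗ[ℂ] E := C.subtype.comp (Submodule.projectionOnto C K hC.symm) with hP
  have hPK : ∀ v : E, v - P v ∈ K := by
    intro v
    have h2 : Submodule.projectionOnto C K hC.symm (v - P v) = 0 := by
      have h6 : Submodule.projectionOnto C K hC.symm (P v) =
          Submodule.projectionOnto C K hC.symm v :=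
        Submodule.projectionOnto_apply_left hC.symm (Submodule.projectionOnto C K hC.symm v)
      rw [map_sub, h6, sub_self]
    exact (Submodule.projectionOnto_apply_eq_zero_iff hC.symm).mp h2
  have hPk0 : ∀ v ∈ K, P v = 0 := by
    intro v hv
    have h3 := (Submodule.projectionOnto_apply_eq_zero_iff hC.symm).mpr hv
    simp [hP, h3]
  set b := Module.finBasis ℂ E with hb
  have hgA : ∀ j, (b.coord j).comp P ∈ A := by
    intro j
    have h4 : A = K.dualAnnihilator := (Subspace.dualCoannihilator_dualAnnihilator_eq).symm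
    rw [h4, Submodule.mem_dualAnnihilator]
    intro v hv
    simp [hPk0 v hv]
  have hm : m = ∑ I : Fin p → Fin (Module.finrank ℂ E),
      m (fun i => b (I i)) • tpm (fun i => (b.coord (I i)).comp P) := by
    ext v
    have h5 : m v = m (fun i => P (v i)) := mm_mod m K hK _ _ (fun i => hPK (v i))
    rw [h5, mm_exp_apply b m LinearMap.id LinearMap.id (fun i => P (v i)) (fun i => rfl),
      sum_apply]
    refine Finset.sum_congr rfl fun I _ => ?_
    simp [tpm_apply]
  rw [hm]
  refine Submodule.sum_mem _ fun I _ => Submodule.smul_mem _ _ (Submodule.subset_span ?_)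
  exact ⟨_, fun i => hgA (I i), rfl⟩

end MP_d4c35b_ag.TG
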