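import Pool.Agent.Lib.MP_d4c35b_ag.TG.Inj
import Pool.Agent.Lib.MP_d4c35b_ag.TG.LinAlg

set_option linter.unusedSectionVars false

open scoped Manifold ContDiff Topology
open Function Set

namespace MP_d4c35b_ag.TG

variable {E : Type} [NormedAddCommGroup E] [NormedSpace ℂ E] [FiniteDimensional ℂ E]
variable {X : Type} [TopologicalSpace X] [ChartedSpace E X] [IsManifold 𝓘(ℂ, E) ω X]
variable [CompactSpace X] [ConnectedSpace X]

/-- exchange of the two middle blocks -/
def ssc (α β γ δ : Type) : (α ⊕ β) ⊕ (γ ⊕ δ) ≃ (α ⊕ γ) ⊕ (β ⊕ δ) where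
  toFun := fun i => match i with
    | Sum.inl (Sum.inl a) => Sum.inl (Sum.inl a)
    | Sum.inl (Sum.inr b) => Sum.inr (Sum.inl b)
    | Sum.inr (Sum.inl c) => Sum.inl (Sum.inr c)
    | Sum.inr (Sum.inr d) => Sum.inr (Sum.inr d)
  invFun := fun i => match i with
    | Sum.inl (Sum.inl a) => Sum.inl (Sum.inl a)
    | Sum.inl (Sum.inr c) => Sum.inr (Sum.inl c)
    | Sum.inr (Sum.inl b) => Sum.inl (Sum.inr b)
    | Sum.inr (Sum.inr d) => Sum.inr (Sum.inr d)
  left_inv := fun i => by rcases i with (a | b) | (c | d) <;> rfl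
  right_inv := fun i => by rcases i with (a | b) | (c | d) <;> rfl

@[simp] theorem ssc_ll {α β γ δ : Type} (a : α) :
    ssc α β γ δ (Sum.inl (Sum.inl a)) = Sum.inl (Sum.inl a) := rfl
@[simp] theorem ssc_lr {α β γ δ : Type} (a : β) :
    ssc α β γ δ (Sum.inl (Sum.inr a)) = Sum.inr (Sum.inl a) := rfl
@[simp] theorem ssc_rl {α β γ δ : Type} (a : γ) :
    ssc α β γ δ (Sum.inr (Sum.inl a)) = Sum.inl (Sum.inr a) := rfl
@[simp] theorem ssc_rr {α β γ δ : Type} (a : δ) :
    ssc α β γ δ (Sum.inr (Sum.inr a)) = Sum.inr (Sum.inr a) := rfl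

/-- a nonzero holomorphic 1-form has no zeros -/
theorem form_ne {k : ℕ} (hk : 1 ≤ k) {x₀ : X} (hG : GG (E := E) k x₀)
    {η : X → E →ₗ[ℂ] ℂ} (hη : H1 η) (h0 : η ≠ 0) (y : X) : η y ≠ 0 := by
  intro hy
  have h1 : pw (Fin k) η = 0 := by
    refine inj' hG (by simp) (HC_pw hη) (y := y) ?_
    ext v
    rw [pw_apply, hy]
    have : (0 : Fin k → ℂ) = fun _ => 0 := rfl
    simp only [LinearMap.zero_apply, Finset.prod_const, Finset.card_univ, Fintype.card_fin]
    rw [zero_pow (by omega)]; rfl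
  apply h0
  funext x
  ext v
  have h2 := congrArg (fun f => f (fun _ => v)) (congrFun h1 x)
  have h3 : pw (Fin k) η x (fun _ => v) = 0 := h2
  rw [pw_apply] at h3
  simp only [Finset.prod_const, Finset.card_univ, Fintype.card_fin] at h3
  exact pow_eq_zero_iff (by omega) |>.mp h3

theorem exists_one {η : E →ₗ[ℂ] ℂ} (h : η ≠ 0) : ∃ w : E, η w = 1 := by
  obtain ⟨v, hv⟩ : ∃ v, η v ≠ 0 := by
    by_contra hcon
    push Not at hcon
    exact h (LinearMap.ext hcon)
  refine ⟨(η v)⁻¹ • v, ?_⟩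
  rw [map_smul, smul_eq_mul, inv_mul_cancel₀ hv]

/-- INJ in all degrees, if there is a nonzero 1-form -/
theorem injAll {k : ℕ} (hk : 1 ≤ k) {x₀ : X} (hG : GG (E := E) k x₀)
    {η : X → E →ₗ[ℂ] ℂ} (hη : H1 η) (h0 : η ≠ 0) {ι : Type} [Fintype ι] {s : X → MM E ι}
    (hs : HC s) {y : X} (hy : s y = 0) : s = 0 := by
  have h1 : mulF s (pw (Fin ((k - 1) * Fintype.card ι)) η) = 0 := by
    refine inj' hG ?_ (HC_mulF hs (HC_pw hη)) (y := y) ?_
    · rw [Fintype.card_sum, Fintype.card_fin]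
      refine ⟨Fintype.card ι, ?_⟩
      obtain ⟨k', rfl⟩ : ∃ k', k = k' + 1 := ⟨k - 1, by omega⟩
      simp; ring
    · ext v
      rw [mulF_apply, hy]
      simp
  funext x
  ext v
  obtain ⟨w, hw⟩ := exists_one (form_ne hk hG hη h0 x)
  have h2 := congrArg (fun f => f (Sum.elim v (fun _ => w))) (congrFun h1 x)
  have h3 : mulF s (pw (Fin ((k - 1) * Fintype.card ι)) η) x (Sum.elim v (fun _ => w)) = 0 := h2
  rw [mulF_apply, pw_apply] at h3
  simp only [Sum.elim_inl, Sum.elim_inr, hw, Finset.prod_const_one, mul_one] at h3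
  exact h3

/-- slot contractions at `x₀` extend to global 1-forms -/
theorem slot {k : ℕ} (hk : 1 ≤ k) {x₀ : X} (hG : GG (E := E) k x₀)
    {η : X → E →ₗ[ℂ] ℂ} (hη : H1 η) (h0 : η ≠ 0) {U ι' : Type} [Fintype U] [Unique U]
    [Fintype ι'] {s : X → MM E (U ⊕ ι')} (hs : HC s) (v' : ι' → E) :
    ∃ β : X → E →ₗ[ℂ] ℂ, H1 β ∧ ∀ u, β x₀ u = s x₀ (Sum.elim (fun _ => u) v') := by
  classical
  have hne := form_ne hk hG hη h0
  choose wv hwv using fun x => exists_one (hne x)
  set L := (k - 1) * Fintype.card ι' with hL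
  set S : X → MM E ((U ⊕ ι') ⊕ (Fin (k - 1) ⊕ Fin L)) := mulF s (pw (Fin (k - 1) ⊕ Fin L) η)
    with hS
  have hSh : HC S := HC_mulF hs (HC_pw hη)
  obtain ⟨θ, hθ, hθ0⟩ := con' hG (ι := U ⊕ Fin (k - 1)) (κ := ι' ⊕ Fin L) (by
      rw [Fintype.card_sum, Fintype.card_fin]
      refine ⟨Fintype.card ι', ?_⟩
      obtain ⟨k', rfl⟩ : ∃ k', k = k' + 1 := ⟨k - 1, by omega⟩
      simp [hL]; ring)
    (s := reix (ssc U ι' (Fin (k - 1)) (Fin L)) S) (HC_reix _ hSh)
    (Sum.elim v' (fun _ => wv x₀))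
  have hθ0' : ∀ v, θ x₀ v = s x₀ (Sum.elim (fun i => v (Sum.inl i)) v') *
      ∏ a : Fin (k - 1), η x₀ (v (Sum.inr a)) := by
    intro v
    rw [hθ0, reix_apply, hS, mulF_apply, pw_apply, Fintype.prod_sum_type]
    simp only [ssc_ll, ssc_rl, ssc_rr, Sum.elim_inl, Sum.elim_inr]
    have h1 : ∏ x : Fin L, η x₀ (wv x₀) = 1 := by simp [hwv]
    rw [h1, mul_one]
    congr 2
    funext i
    cases i <;> rfl
  -- exchange
  set Θ : X → MM E ((U ⊕ Fin (k - 1)) ⊕ (Fin (k - 1) ⊕ U)) := mulF θ (pw (Fin (k - 1) ⊕ U) η)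
    with hΘ
  have hΘh : HC Θ := HC_mulF hθ (HC_pw hη)
  have hex : Θ - reix (ssc U (Fin (k - 1)) (Fin (k - 1)) U) Θ = 0 := by
    refine inj' hG ?_ (HC_sub hΘh (HC_reix _ hΘh)) (y := x₀) ?_
    · simp only [Fintype.card_sum, Fintype.card_fin, Fintype.card_unique]
      refine ⟨2, ?_⟩
      omega
    · ext v
      rw [Pi.sub_apply, sub_apply, reix_apply, hΘ, mulF_apply, mulF_apply,
        hθ0', hθ0', pw_apply, pw_apply, Fintype.prod_sum_type, Fintype.prod_sum_type]
      simp only [ssc_ll, ssc_lr, ssc_rl, ssc_rr, MultilinearMap.zero_apply, Pi.zero_apply]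
      ring
  have hex' : ∀ (x : X) (u : U → E) (a b : Fin (k - 1) → E) (c : U → E),
      θ x (Sum.elim u a) * ((∏ i, η x (b i)) * ∏ i, η x (c i)) =
      θ x (Sum.elim u b) * ((∏ i, η x (a i)) * ∏ i, η x (c i)) := by
    intro x u a b c
    have h1 := congrArg (fun f => f (Sum.elim (Sum.elim u a) (Sum.elim b c))) (congrFun hex x)
    have h2 : Θ x (Sum.elim (Sum.elim u a) (Sum.elim b c)) -
      reix (ssc U (Fin (k - 1)) (Fin (k - 1)) U) Θ x
        (Sum.elim (Sum.elim u a) (Sum.elim b c)) = 0 := h1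
    rw [sub_eq_zero, reix_apply, hΘ, mulF_apply, mulF_apply, pw_apply, pw_apply,
      Fintype.prod_sum_type, Fintype.prod_sum_type] at h2
    simp only [ssc_lr, ssc_rl, ssc_rr, Sum.elim_inl, Sum.elim_inr] at h2
    have h3 : (fun i => (Sum.elim (Sum.elim u a) (Sum.elim b c) :
        (U ⊕ Fin (k - 1)) ⊕ (Fin (k - 1) ⊕ U) → E)
        ((ssc U (Fin (k - 1)) (Fin (k - 1)) U) (Sum.inl i))) = Sum.elim u b := by
      funext i; cases i <;> rfl
    rw [h3] at h2
    exact h2
  set β : X → E →ₗ[ℂ] ℂ := fun x =>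
    { toFun := fun u => θ x (Sum.elim (fun _ => u) (fun _ => wv x))
      map_add' := fun u u' => by
        have h1 := (θ x).map_update_add (Sum.elim (fun _ => 0) (fun _ => wv x))
          (Sum.inl default) u u'
        have h2 : ∀ u : E, Function.update (Sum.elim (fun _ : U => (0:E))
            (fun _ : Fin (k-1) => wv x)) (Sum.inl default) u =
            Sum.elim (fun _ => u) (fun _ => wv x) := by
          intro u
          funext i
          cases i with
          | inl i => rw [Unique.eq_default i]; simp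
          | inr i => simp
        rw [h2, h2, h2] at h1
        exact h1
      map_smul' := fun c u => by
        have h1 := (θ x).map_update_smul (Sum.elim (fun _ => 0) (fun _ => wv x))
          (Sum.inl default) c u
        have h2 : ∀ u : E, Function.update (Sum.elim (fun _ : U => (0:E))
            (fun _ : Fin (k-1) => wv x)) (Sum.inl default) u =
            Sum.elim (fun _ => u) (fun _ => wv x) := by
          intro u
          funext i
          cases i with
          | inl i => rw [Unique.eq_default i]; simp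
          | inr i => simp
        rw [h2, h2] at h1
        exact h1 } with hβ
  have hβa : ∀ x u, β x u = θ x (Sum.elim (fun _ => u) (fun _ => wv x)) := fun x u => rfl
  refine ⟨β, ?_, ?_⟩
  · rw [H1_iff]
    intro y v
    have h1 : ∀ᶠ z in 𝓝 y, η z (toT y z (wv y)) ≠ 0 := by
      have h2 : ContinuousAt (fun z => η z (toT y z (wv y))) y :=
        ((H1_iff.mp hη y) (wv y)).continuousAt
      refine h2.eventually_ne ?_
      rw [toT_self, hwv]
      exact one_ne_zero
    have h3 : DA (E := E) (fun z => θ z (fun i => toT y z ((Sum.elim (fun _ => v)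
        (fun _ => wv y) : U ⊕ Fin (k-1) → E) i)) *
        ((η z (toT y z (wv y))) ^ (k - 1))⁻¹) y := by
      refine da_mul ((HC_iff.mp hθ y) _) ?_
      have h4 : DA (E := E) (fun z => (η z (toT y z (wv y))) ^ (k - 1)) y :=
        MDifferentiableAt.pow ((H1_iff.mp hη y) (wv y)) (k - 1)
      refine MDifferentiableAt.inv h4 ?_
      rw [toT_self, hwv]
      simp
    refine h3.congr_of_eventuallyEq ?_
    filter_upwards [h1] with z hz
    rw [hβa, eq_mul_inv_iff_mul_eq₀ (pow_ne_zero _ hz)]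
    have h5 := hex' z (fun _ => toT y z v) (fun _ => wv z) (fun _ => toT y z (wv y))
      (fun _ => wv z)
    simp only [Finset.prod_const, Finset.card_univ, Fintype.card_fin, hwv, one_pow, mul_one]
      at h5
    rw [h5]
    congr 1
    funext i
    cases i <;> rfl
  · intro u
    rw [hβa, hθ0']
    simp [hwv]

end MP_d4c35b_ag.TG
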