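import Pool.Agent.Lib.MP_d4c35b_ag.TG.PB
import Pool.Agent.Lib.MP_d4c35b_ag.TG.G1

set_option linter.unusedSectionVars false

open scoped Manifold ContDiff Topology
open Function Set

namespace MP_d4c35b_ag.TG

section

variable {E : Type} [NormedAddCommGroup E] [NormedSpace ℂ E] [FiniteDimensional ℂ E]
variable {X : Type} [TopologicalSpace X] [ChartedSpace E X]
variable {Y : Type} [TopologicalSpace Y] [ChartedSpace E Y]
variable {Z : Type} [TopologicalSpace Z] [ChartedSpace E Z]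

theorem etale_comp {f : Y → X} {g : Z → Y} (hf : Etale E f) (hg : Etale E g) :
    Etale E (f ∘ g) := fun z => (hg z).comp _ _ (hf (g z))

theorem etale_id : Etale E (id : X → X) :=
  (Diffeomorph.refl 𝓘(ℂ, E) X ω).isLocalDiffeomorph

theorem dd_comp {f : Y → X} {g : Z → Y} (hf : Etale E f) (hg : Etale E g) (z : Z) (v : E) :
    dd (E := E) (f ∘ g) z v = dd f (g z) (dd g z v) := by
  have h := mfderiv_comp z ((hf (g z)).mdifferentiableAt (by simp))
    ((hg z).mdifferentiableAt (by simp))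
  exact congrArg (fun L : E →L[ℂ] E => L v) h

theorem pull1_comp {f : Y → X} {g : Z → Y} (hf : Etale E f) (hg : Etale E g)
    (η : X → E →ₗ[ℂ] ℂ) : pull1 (f ∘ g) η = pull1 g (pull1 f η) := by
  funext z
  ext v
  exact congrArg (η (f (g z))) (dd_comp hf hg z v)

theorem etale_surj [CCM E X] [CCM E Y] {f : Y → X} (hf : Etale E f) : Surjective f := by
  have h1 : IsOpen (range f) := hf.isOpen_range
  have h2 : IsClosed (range f) := (isCompact_range hf.contMDiff.continuous).isClosed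
  have h3 : range f = univ := IsClopen.eq_univ ⟨h2, h1⟩ (range_nonempty f)
  exact range_eq_univ.mp h3

theorem pull1_inj [CCM E X] [CCM E Y] {f : Y → X} (hf : Etale E f) {η : X → E →ₗ[ℂ] ℂ}
    (h : pull1 f η = 0) : η = 0 := by
  funext x
  obtain ⟨y, rfl⟩ := etale_surj hf x
  ext v
  obtain ⟨u, rfl⟩ := dd_surj (hf y) v
  have h1 := congrFun h y
  exact congrArg (fun L : E →ₗ[ℂ] ℂ => L u) h1

theorem GG_lift [CCM E X] [CCM E Y] {f : Y → X} (hf : Etale E f) {k : ℕ}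
    (hG : ∃ x₀ : X, GG (E := E) k x₀) : ∃ y₀ : Y, GG (E := E) k y₀ := by
  obtain ⟨x₀, hG⟩ := hG
  obtain ⟨y₀, rfl⟩ := etale_surj hf x₀
  exact ⟨y₀, GG_pull hf hG⟩

theorem mem_F1 [IsManifold 𝓘(ℂ, E) ω X] {η : X → E →ₗ[ℂ] ℂ} : η ∈ F1 E X ↔ H1 η := Iff.rfl

/-- evaluation of 1-forms at a point -/
noncomputable def evF [IsManifold 𝓘(ℂ, E) ω X] (x : X) : F1 E X →ₗ[ℂ] (E →ₗ[ℂ] ℂ) :=
  (LinearMap.proj x : (X → E →ₗ[ℂ] ℂ) →ₗ[ℂ] (E →ₗ[ℂ] ℂ)).comp (F1 E X).subtype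

theorem evF_inj [CCM E X] {k : ℕ} (hk : 1 ≤ k) (hG : ∃ x₀ : X, GG (E := E) k x₀) (x : X) :
    Injective (evF (E := E) x) := by
  obtain ⟨x₀, hG⟩ := hG
  rw [injective_iff_map_eq_zero]
  intro η h
  by_contra hne
  have h0 : (η : X → E →ₗ[ℂ] ℂ) ≠ 0 := fun h => hne (Subtype.ext h)
  exact form_ne hk hG η.2 h0 x h

theorem F1_finite [CCM E X] {k : ℕ} (hk : 1 ≤ k) (hG : ∃ x₀ : X, GG (E := E) k x₀) :
    Module.Finite ℂ (F1 E X) := by
  obtain ⟨x⟩ := (inferInstance : Nonempty X)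
  exact Module.Finite.of_injective (evF (E := E) x) (evF_inj hk hG x)

theorem F1_rank [CCM E X] {k : ℕ} (hk : 1 ≤ k) (hG : ∃ x₀ : X, GG (E := E) k x₀) :
    Module.finrank ℂ (F1 E X) ≤ Module.finrank ℂ (E →ₗ[ℂ] ℂ) := by
  obtain ⟨x⟩ := (inferInstance : Nonempty X)
  exact LinearMap.finrank_le_finrank_of_injective (evF_inj hk hG x)

/-- pull back as a linear map -/
noncomputable def pl [IsManifold 𝓘(ℂ, E) ω X] [IsManifold 𝓘(ℂ, E) ω Y] {f : Y → X}
    (hf : Etale E f) : F1 E X →ₗ[ℂ] F1 E Y where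
  toFun η := ⟨pull1 f η, H1_pull1 hf η.2⟩
  map_add' a b := rfl
  map_smul' c a := rfl

theorem pl_inj [CCM E X] [CCM E Y] {f : Y → X} (hf : Etale E f) : Injective (pl hf) := by
  rw [injective_iff_map_eq_zero]
  intro η h
  exact Subtype.ext (pull1_inj hf (congrArg Subtype.val h))

end

/-- Choice of the étale cover with the largest number of 1-forms. -/
theorem exists_max {E : Type} [NormedAddCommGroup E] [NormedSpace ℂ E] [FiniteDimensional ℂ E]
    {X : Type} [TopologicalSpace X] [ChartedSpace E X] [CCM E X] {k : ℕ} (hk : 1 ≤ k)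
    (hG : ∃ x₀ : X, GG (E := E) k x₀) :
    ∃ (Y : Type) (_ : TopologicalSpace Y) (_ : ChartedSpace E Y) (_ : CCM E Y) (f : Y → X),
      Etale E f ∧ (∃ y₀ : Y, GG (E := E) k y₀) ∧
      ∀ (Z : Type) [TopologicalSpace Z] [ChartedSpace E Z] [CCM E Z] (g : Z → Y), Etale E g →
        ∀ η : Z → E →ₗ[ℂ] ℂ, H1 η → ∃ β : Y → E →ₗ[ℂ] ℂ, H1 β ∧ η = pull1 g β := by
  classical
  set P : ℕ → Prop := fun n => ∃ (Y : Type) (_ : TopologicalSpace Y) (_ : ChartedSpace E Y)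
    (_ : CCM E Y) (f : Y → X), Etale E f ∧ Module.finrank ℂ (F1 E Y) = n with hP
  have hP0 : P (Module.finrank ℂ (F1 E X)) := ⟨X, _, _, inferInstance, id, etale_id, rfl⟩
  have hb : ∀ n, P n → n ≤ Module.finrank ℂ (E →ₗ[ℂ] ℂ) := by
    rintro n ⟨Y, _, _, _, f, hf, rfl⟩
    exact F1_rank hk (GG_lift hf hG)
  obtain ⟨n, ⟨Y, _, _, _, f, hf, hn⟩, hmax⟩ : ∃ n, P n ∧ ∀ m, P m → m ≤ n := by
    refine ⟨Nat.findGreatest P (Module.finrank ℂ (E →ₗ[ℂ] ℂ)), ?_, ?_⟩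
    · exact Nat.findGreatest_spec (hb _ hP0) hP0
    · intro m hm
      exact Nat.le_findGreatest (hb m hm) hm
  refine ⟨Y, _, _, inferInstance, f, hf, GG_lift hf hG, ?_⟩
  intro Z _ _ _ g hg η hη
  have hGY := GG_lift hf hG
  have hGZ := GG_lift hg hGY
  have hfY := F1_finite hk hGY
  have hfZ := F1_finite hk hGZ
  have h1 : Module.finrank ℂ (F1 E Z) ≤ n :=
    hmax _ ⟨Z, _, _, inferInstance, f ∘ g, etale_comp hf hg, rfl⟩
  have h2 : Module.finrank ℂ (F1 E Y) ≤ Module.finrank ℂ (F1 E Z) :=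
    LinearMap.finrank_le_finrank_of_injective (pl_inj hg)
  have h3 : Module.finrank ℂ (F1 E Y) = Module.finrank ℂ (F1 E Z) := le_antisymm h2 (hn ▸ h1)
  have h4 : Surjective (pl hg) :=
    (LinearMap.injective_iff_surjective_of_finrank_eq_finrank h3).mp (pl_inj hg)
  obtain ⟨β, hβ⟩ := h4 ⟨η, hη⟩
  exact ⟨β, β.2, (congrArg Subtype.val hβ).symm⟩

end MP_d4c35b_ag.TG
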