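import Pool.Agent.Lib.MP_d4c35b_ag.TG.Conv
import Pool.Agent.Lib.MP_d4c35b_ag.TG.Surj

set_option linter.unusedSectionVars false

open scoped Manifold ContDiff Topology TensorProduct
open Function Set

namespace MP_d4c35b_ag.TG

open MP_d4c35b_ag.Read hiding Etale

variable {E : Type} [NormedAddCommGroup E] [NormedSpace ℂ E] [FiniteDimensional ℂ E]
variable {Y : Type} [TopologicalSpace Y] [ChartedSpace E Y] [IsManifold 𝓘(ℂ, E) ω Y]
variable {F : Type} [NormedAddCommGroup F] [NormedSpace ℂ F] [FiniteDimensional ℂ F]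
variable {A : Type} [TopologicalSpace A] [ChartedSpace F A] [IsManifold 𝓘(ℂ, F) ω A]

/-- the image of a holomorphic vector field in the chart at `f y` -/
theorem push_at {f : Y → A} {y : Y} (hf : ContMDiffAt 𝓘(ℂ, E) 𝓘(ℂ, F) ω f y)
    {U : Set Y} (hU : IsOpen U) {V : Field E Y} (hV : HolField U V) (hy : y ∈ U) :
    ∃ c : Y → F, MDifferentiableAt 𝓘(ℂ, E) 𝓘(ℂ, F) c y ∧
      ∀ᶠ z in 𝓝 y, (mfderiv 𝓘(ℂ, E) 𝓘(ℂ, F) f z : E →L[ℂ] F) (V z) =
        (toT (f y) (f z) : F →L[ℂ] F) (c z) := by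
  have : IsManifold 𝓘(ℂ, F) (1 + 1) A := IsManifold.of_le (n := ω) le_top
  have : IsManifold 𝓘(ℂ, E) (1 + 1) Y := IsManifold.of_le (n := ω) le_top
  have : IsManifold 𝓘(ℂ, F) 1 A := IsManifold.of_le (n := ω) le_top
  have : IsManifold 𝓘(ℂ, E) 1 Y := IsManifold.of_le (n := ω) le_top
  have hA : MDifferentiableAt 𝓘(ℂ, E) 𝓘(ℂ, E →L[ℂ] F)
      (inTangentCoordinates 𝓘(ℂ, E) 𝓘(ℂ, F) id f (mfderiv 𝓘(ℂ, E) 𝓘(ℂ, F) f) y) y := by
    have h := ContMDiffAt.mfderiv_const (m := 1) hf (by exact le_top)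
    exact h.mdifferentiableAt one_ne_zero
  refine ⟨fun z => inTangentCoordinates 𝓘(ℂ, E) 𝓘(ℂ, F) id f
    (mfderiv 𝓘(ℂ, E) 𝓘(ℂ, F) f) y z ((ofT y z : E →L[ℂ] E) (V z)),
    hA.clm_apply (holField_at hU hV hy), ?_⟩
  have h1 : ∀ᶠ z in 𝓝 y, f z ∈ (chartAt F (f y)).source :=
    hf.continuousAt.eventually ((chartAt F (f y)).open_source.mem_nhds (mem_chart_source F _))
  have h2 : ∀ᶠ z in 𝓝 y, z ∈ (chartAt E y).source :=
    (chartAt E y).open_source.mem_nhds (mem_chart_source E _)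
  filter_upwards [h1, h2] with z hz1 hz2
  have h3 := inTangentCoordinates_eq (I := 𝓘(ℂ, E)) (I' := 𝓘(ℂ, F)) id f
    (fun z => (mfderiv 𝓘(ℂ, E) 𝓘(ℂ, F) f z : E →L[ℂ] F)) (x₀ := y) (x := z) hz2 hz1
  have h4 : inTangentCoordinates 𝓘(ℂ, E) 𝓘(ℂ, F) id f (mfderiv 𝓘(ℂ, E) 𝓘(ℂ, F) f) y z
      ((ofT y z : E →L[ℂ] E) (V z)) =
      (ofT (f y) (f z) : F →L[ℂ] F) ((mfderiv 𝓘(ℂ, E) 𝓘(ℂ, F) f z : E →L[ℂ] F)
        ((toT y z : E →L[ℂ] E) ((ofT y z : E →L[ℂ] E) (V z)))) := by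
    exact congrArg (fun L : E →L[ℂ] F => L ((ofT y z : E →L[ℂ] E) (V z))) h3
  rw [h4, toT_ofT hz2 (V z), toT_ofT hz1]

theorem da_H1' {η : A → F →ₗ[ℂ] ℂ} {f : Y → A} {y : Y}
    (hs : H1at (E := F) η (f y)) (hf : MDifferentiableAt 𝓘(ℂ, E) 𝓘(ℂ, F) f y) {c : Y → F}
    (hc : MDifferentiableAt 𝓘(ℂ, E) 𝓘(ℂ, F) c y) :
    DA (E := E) (fun z => η (f z) ((toT (f y) (f z) : F →L[ℂ] F) (c z))) y := by
  have h : (fun z => η (f z) ((toT (f y) (f z) : F →L[ℂ] F) (c z))) =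
      fun z => ∑ j : Fin (Module.finrank ℂ F),
      (Module.finBasis ℂ F).coord j (c z) *
        η (f z) ((toT (f y) (f z) : F →L[ℂ] F) ((Module.finBasis ℂ F) j)) := by
    funext z
    conv_lhs => rw [← (Module.finBasis ℂ F).sum_repr (c z)]
    rw [map_sum, map_sum]
    refine Finset.sum_congr rfl fun j _ => ?_
    rw [map_smul, map_smul]; rfl
  rw [h]
  refine da_sum (E := E) fun j => da_mul (E := E) ?_ ?_
  · have h2 : MDifferentiableAt 𝓘(ℂ, F) 𝓘(ℂ)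
        (fun v : F => (Module.finBasis ℂ F).coord j v) (c y) :=
      (LinearMap.toContinuousLinearMap
        ((Module.finBasis ℂ F).coord j)).differentiableAt.mdifferentiableAt
    exact h2.comp y hc
  · exact MDifferentiableAt.comp y (hs ((Module.finBasis ℂ F) j)) hf

/-- pull back of a 1-form under any holomorphic map -/
theorem holForm_pull {f : Y → A} (hf : ContMDiff 𝓘(ℂ, E) 𝓘(ℂ, F) ω f)
    {η : Form F A} (hη : HolForm univ η) : HolForm univ (pullForm (E := E) f η) := by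
  intro U' hU' _ V hV y hy
  refine MDifferentiableAt.mdifferentiableWithinAt ?_
  obtain ⟨c, hc, hce⟩ := push_at (hf y) hU' hV hy
  have h0 : H1at (E := F) (X := A) η (f y) := H1at_of_holForm isOpen_univ hη (mem_univ _)
  have h1 := da_H1' h0 ((hf y).mdifferentiableAt (by simp)) hc
  refine h1.congr_of_eventuallyEq ?_
  filter_upwards [hce] with z hz
  exact congrArg (η (f z) : F →ₗ[ℂ] ℂ) hz

/-- a holomorphic map with surjective differentials is open -/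
theorem open_of_submersion {f : Y → A} (hf : ContMDiff 𝓘(ℂ, E) 𝓘(ℂ, F) ω f)
    (hs : ∀ y, Surjective (mfderiv 𝓘(ℂ, E) 𝓘(ℂ, F) f y)) : IsOpenMap f := by
  have : CompleteSpace E := FiniteDimensional.complete ℂ E
  have : CompleteSpace F := FiniteDimensional.complete ℂ F
  rw [isOpenMap_iff_nhds_le]
  intro y
  set φ := chartAt E y with hφ
  set ψ := chartAt F (f y) with hψ
  have h1 := hf y
  rw [contMDiffAt_iff] at h1
  obtain ⟨hcont, h2⟩ := h1
  have h3 : ContDiffAt ℂ ω (ψ ∘ f ∘ φ.symm) (φ y) := by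
    have h4 := h2
    simp only [mfld_simps] at h4
    rw [contDiffWithinAt_univ] at h4
    exact h4
  have hst : HasStrictFDerivAt (ψ ∘ f ∘ φ.symm) (fderiv ℂ (ψ ∘ f ∘ φ.symm) (φ y)) (φ y) :=
    h3.hasStrictFDerivAt (by simp)
  have hder : (mfderiv 𝓘(ℂ, E) 𝓘(ℂ, F) f y : E →L[ℂ] F) = fderiv ℂ (ψ ∘ f ∘ φ.symm) (φ y) := by
    have h5 : MDifferentiableAt 𝓘(ℂ, E) 𝓘(ℂ, F) f y := (hf y).mdifferentiableAt (by simp)
    simp only [mfderiv, h5, if_true]
    simp only [mfld_simps]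
    rw [fderivWithin_univ]
  have hsur : (fderiv ℂ (ψ ∘ f ∘ φ.symm) (φ y)).range = ⊤ := by
    rw [← hder]
    exact LinearMap.range_eq_top.mpr (hs y)
  have hmap := hst.map_nhds_eq_of_surj hsur
  have hy : y ∈ φ.source := mem_chart_source E y
  have hfy : f y ∈ ψ.source := mem_chart_source F (f y)
  have e1 : (ψ ∘ f ∘ φ.symm) (φ y) = ψ (f y) := by simp [φ.left_inv hy]
  rw [e1, ← ψ.map_nhds_eq hfy, ← φ.map_nhds_eq hy, Filter.map_map] at hmap
  have e2 : Filter.map ((ψ ∘ f ∘ φ.symm) ∘ φ) (𝓝 y) = Filter.map ψ (Filter.map f (𝓝 y)) := by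
    rw [Filter.map_map]
    refine Filter.map_congr ?_
    filter_upwards [φ.open_source.mem_nhds hy] with z hz
    simp [φ.left_inv hz]
  rw [e2] at hmap
  -- apply `ψ.symm`
  have hmap2 : Filter.map (ψ.symm ∘ ψ) (Filter.map f (𝓝 y)) =
      Filter.map (ψ.symm ∘ ψ) (𝓝 (f y)) := by
    rw [← Filter.map_map, ← Filter.map_map, hmap]
  have e3 : Filter.map (ψ.symm ∘ ψ) (𝓝 (f y)) = 𝓝 (f y) := by
    have : Filter.map (ψ.symm ∘ ψ) (𝓝 (f y)) = Filter.map id (𝓝 (f y)) := by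
      refine Filter.map_congr ?_
      filter_upwards [ψ.open_source.mem_nhds hfy] with z hz
      exact ψ.left_inv hz
    rw [this, Filter.map_id]
  have e4 : Filter.map (ψ.symm ∘ ψ) (Filter.map f (𝓝 y)) = Filter.map f (𝓝 y) := by
    have : Filter.map (ψ.symm ∘ ψ) (Filter.map f (𝓝 y)) = Filter.map id (Filter.map f (𝓝 y)) := by
      refine Filter.map_congr ?_
      have h6 : ∀ᶠ z in Filter.map f (𝓝 y), z ∈ ψ.source :=
        hcont.eventually (ψ.open_source.mem_nhds hfy)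
      filter_upwards [h6] with z hz
      exact ψ.left_inv hz
    rw [this, Filter.map_id]
  rw [e3, e4] at hmap2
  exact hmap2.ge

end MP_d4c35b_ag.TG
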