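import Pool.Agent.Lib.MP_d4c35b_ag.TG.Defs

open scoped Manifold ContDiff Topology
open Function Set

namespace MP_d4c35b_ag.TG

section Exp

variable {E : Type} [NormedAddCommGroup E] [NormedSpace ℂ E]
variable {κ : Type} [Fintype κ]

/-- coordinate monomials -/
noncomputable def EI {d : ℕ} (b : Module.Basis (Fin d) ℂ E) (I : κ → Fin d) : MM E κ :=
  (MultilinearMap.mkPiAlgebra ℂ κ ℂ).compLinearMap (fun i => b.coord (I i))

theorem EI_apply {d : ℕ} (b : Module.Basis (Fin d) ℂ E) (I : κ → Fin d) (w : κ → E) :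
    EI b I w = ∏ i, b.coord (I i) (w i) := by
  simp [EI]

theorem mm_exp_apply [DecidableEq κ] {d : ℕ} (b : Module.Basis (Fin d) ℂ E) (m : MM E κ) (A B : E →ₗ[ℂ] E)
    (w : κ → E) (hAB : ∀ i, A (B (w i)) = w i) :
    m w = ∑ I : κ → Fin d, m (fun i => A (b (I i))) * ∏ i, b.coord (I i) (B (w i)) := by
  have h1 : w = fun i => ∑ j : Fin d, b.coord j (B (w i)) • A (b j) := by
    funext i
    have h2 := b.sum_repr (B (w i))
    have h3 := congrArg A h2
    rw [map_sum, hAB] at h3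
    refine h3.symm.trans ?_
    refine Finset.sum_congr rfl fun j _ => ?_
    rw [map_smul]; rfl
  conv_lhs => rw [h1]
  rw [MultilinearMap.map_sum]
  refine Finset.sum_congr rfl fun I _ => ?_
  rw [MultilinearMap.map_smul_univ, smul_eq_mul, mul_comm]

theorem mm_exp [DecidableEq κ] {d : ℕ} (b : Module.Basis (Fin d) ℂ E) (m : MM E κ) (A B : E →ₗ[ℂ] E)
    (hAB : ∀ v, A (B v) = v) :
    m = ∑ I : κ → Fin d, m (fun i => A (b (I i))) • (EI b I).compLinearMap (fun _ => B) := by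
  ext w
  rw [mm_exp_apply b m A B w (fun i => hAB _), sum_apply]
  refine Finset.sum_congr rfl fun I _ => ?_
  simp [EI_apply]

end Exp

section TCC

variable {E : Type} [NormedAddCommGroup E] [NormedSpace ℂ E]
variable {X : Type} [TopologicalSpace X] [ChartedSpace E X] [IsManifold 𝓘(ℂ, E) ω X]

theorem toT_self {x₀ : X} (v : E) : toT x₀ x₀ v = v :=
  tangentCoordChange_self (I := 𝓘(ℂ, E)) (by simp)

theorem ofT_self {x₀ : X} (v : E) : ofT x₀ x₀ v = v :=
  tangentCoordChange_self (I := 𝓘(ℂ, E)) (by simp)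

theorem toT_ofT {x₀ x : X} (hx : x ∈ (chartAt E x₀).source) (v : E) :
    toT x₀ x (ofT x₀ x v) = v := by
  unfold toT ofT
  rw [tangentCoordChange_comp (I := 𝓘(ℂ, E)), tangentCoordChange_self (I := 𝓘(ℂ, E))]
  · simp
  · simp [hx]

theorem ofT_toT {x₀ x : X} (hx : x ∈ (chartAt E x₀).source) (v : E) :
    ofT x₀ x (toT x₀ x v) = v := by
  unfold toT ofT
  rw [tangentCoordChange_comp (I := 𝓘(ℂ, E)), tangentCoordChange_self (I := 𝓘(ℂ, E))]
  · simp [hx]
  · simp [hx]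

/-- change of charts -/
theorem toT_change {x₀ x₁ x : X} (h0 : x ∈ (chartAt E x₀).source) (h1 : x ∈ (chartAt E x₁).source)
    (v : E) : toT x₀ x v = toT x₁ x (tangentCoordChange 𝓘(ℂ, E) x₀ x₁ x v) := by
  unfold toT
  rw [tangentCoordChange_comp (I := 𝓘(ℂ, E))]
  simp [h0, h1]

theorem ofT_change {x₀ x₁ x : X} (h0 : x ∈ (chartAt E x₀).source) (h1 : x ∈ (chartAt E x₁).source)
    (v : E) : ofT x₀ x v = tangentCoordChange 𝓘(ℂ, E) x₁ x₀ x (ofT x₁ x v) := by
  unfold ofT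
  rw [tangentCoordChange_comp (I := 𝓘(ℂ, E))]
  simp [h0, h1]

theorem mdiff_tcc {x₀ x₁ x : X} (h0 : x ∈ (chartAt E x₀).source) (h1 : x ∈ (chartAt E x₁).source) :
    MDifferentiableAt 𝓘(ℂ, E) 𝓘(ℂ, E →L[ℂ] E) (fun z => tangentCoordChange 𝓘(ℂ, E) x₀ x₁ z) x := by
  have : IsManifold 𝓘(ℂ, E) (1 + 1) X := IsManifold.of_le (n := ω) le_top
  have := tangentBundleCore.isContMDiff (I := 𝓘(ℂ, E)) (M := X) (n := 1)
  have h := (tangentBundleCore 𝓘(ℂ, E) X).contMDiffOn_coordChange (n := 1) 𝓘(ℂ, E)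
    (achart E x₀) (achart E x₁)
  have h2 : (tangentBundleCore 𝓘(ℂ, E) X).baseSet (achart E x₀) ∩
      (tangentBundleCore 𝓘(ℂ, E) X).baseSet (achart E x₁) ∈ 𝓝 x := by
    refine Filter.inter_mem ?_ ?_
    · exact (chartAt E x₀).open_source.mem_nhds h0
    · exact (chartAt E x₁).open_source.mem_nhds h1
  exact (h.contMDiffAt h2).mdifferentiableAt (by simp)

end TCC

end MP_d4c35b_ag.TG
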