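import Pool.Agent.Lib.MP_d4c35b_ag.TG.Hol

open scoped Manifold ContDiff Topology
open Function Set

namespace MP_d4c35b_ag.TG

variable {E : Type} [NormedAddCommGroup E] [NormedSpace ℂ E] [FiniteDimensional ℂ E]
variable {X : Type} [TopologicalSpace X] [ChartedSpace E X] [IsManifold 𝓘(ℂ, E) ω X]

theorem mulM_apply {ι κ : Type} (a : MM E ι) (b : MM E κ) (v : ι ⊕ κ → E) :
    mulM a b v = a (fun i => v (Sum.inl i)) * b (fun j => v (Sum.inr j)) := by
  simp [mulM, MultilinearMap.domCoprod_apply]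

theorem mulF_apply {ι κ : Type} (s : X → MM E ι) (t : X → MM E κ) (x : X) (v : ι ⊕ κ → E) :
    mulF s t x v = s x (fun i => v (Sum.inl i)) * t x (fun j => v (Sum.inr j)) :=
  mulM_apply _ _ _

theorem pw_apply {ι : Type} [Fintype ι] (η : X → E →ₗ[ℂ] ℂ) (x : X) (v : ι → E) :
    pw ι η x v = ∏ i, η x (v i) := by
  simp [pw]

theorem tp_apply {p : ℕ} (η : Fin p → X → E →ₗ[ℂ] ℂ) (x : X) (v : Fin p → E) :
    tp η x v = ∏ i, η i x (v i) := by
  simp [tp]

theorem reix_apply {ι ι' : Type} (e : ι ≃ ι') (s : X → MM E ι) (x : X) (v : ι' → E) :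
    reix e s x v = s x (fun i => v (e i)) := rfl

theorem ctr_apply {ι κ : Type} [DecidableEq ι] [DecidableEq κ] (s : X → MM E (ι ⊕ κ))
    (τ : X → MM E κ →ₗ[ℂ] ℂ) (x : X) (v : ι → E) :
    ctr s τ x v = τ x ((s x).currySum v) := rfl

theorem HC_zero {ι : Type} : HC (0 : X → MM E ι) := by
  intro x₀ v
  exact mdifferentiableOn_const

theorem HC_add {ι : Type} {s t : X → MM E ι} (hs : HC s) (ht : HC t) : HC (s + t) := by
  intro x₀ v
  exact MDifferentiableOn.add (hs x₀ v) (ht x₀ v)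

theorem HC_sub {ι : Type} {s t : X → MM E ι} (hs : HC s) (ht : HC t) : HC (s - t) := by
  intro x₀ v
  exact MDifferentiableOn.sub (hs x₀ v) (ht x₀ v)

theorem HC_smul {ι : Type} {s : X → MM E ι} (c : ℂ) (hs : HC s) : HC (c • s) := by
  intro x₀ v
  exact MDifferentiableOn.const_smul c (hs x₀ v)

theorem HC_reix {ι ι' : Type} (e : ι ≃ ι') {s : X → MM E ι} (hs : HC s) : HC (reix e s) := by
  intro x₀ v
  exact hs x₀ (fun i => v (e i))

theorem HC_mulF {ι κ : Type} {s : X → MM E ι} {t : X → MM E κ} (hs : HC s) (ht : HC t) :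
    HC (mulF s t) := by
  intro x₀ v
  have h := MDifferentiableOn.mul (hs x₀ (fun i => v (Sum.inl i))) (ht x₀ (fun j => v (Sum.inr j)))
  refine h.congr ?_
  intro x hx
  simp [mulF_apply]

theorem HC_pw {ι : Type} [Fintype ι] {η : X → E →ₗ[ℂ] ℂ} (hη : H1 η) : HC (pw ι η) := by
  rw [HC_iff]
  intro y v
  simp only [pw_apply]
  exact da_prod fun i => (H1_iff.mp hη y) (v i)

theorem HC_tp {p : ℕ} {η : Fin p → X → E →ₗ[ℂ] ℂ} (hη : ∀ i, H1 (η i)) : HC (tp η) := by
  rw [HC_iff]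
  intro y v
  simp only [tp_apply]
  exact da_prod fun i => (H1_iff.mp (hη i) y) (v i)

theorem H1_zero : H1 (0 : X → E →ₗ[ℂ] ℂ) := by
  intro x₀ v
  exact mdifferentiableOn_const

theorem H1_add {s t : X → E →ₗ[ℂ] ℂ} (hs : H1 s) (ht : H1 t) : H1 (s + t) := by
  intro x₀ v
  exact MDifferentiableOn.add (hs x₀ v) (ht x₀ v)

theorem H1_smul {s : X → E →ₗ[ℂ] ℂ} (c : ℂ) (hs : H1 s) : H1 (c • s) := by
  intro x₀ v
  exact MDifferentiableOn.const_smul c (hs x₀ v)

/-- the space of holomorphic 1-forms -/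
def F1 (E X : Type) [NormedAddCommGroup E] [NormedSpace ℂ E] [FiniteDimensional ℂ E]
    [TopologicalSpace X] [ChartedSpace E X] [IsManifold 𝓘(ℂ, E) ω X] :
    Submodule ℂ (X → E →ₗ[ℂ] ℂ) where
  carrier := {η | H1 η}
  add_mem' := fun h1 h2 => H1_add h1 h2
  zero_mem' := H1_zero
  smul_mem' := fun c _ h => H1_smul c h

theorem HC_ctr {ι κ : Type} [Fintype ι] [Fintype κ] [DecidableEq ι] [DecidableEq κ]
    {s : X → MM E (ι ⊕ κ)} {τ : X → MM E κ →ₗ[ℂ] ℂ} (hs : HC s) (hτ : HK τ) :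
    HC (ctr s τ) := by
  rw [HC_iff]
  intro y v
  have h1 := da_HK (f := fun z : X => z) (HK_iff.mp hτ y) mdifferentiableAt_id
      (m := fun z => ((s z).currySum (fun i => toT y z (v i))).compLinearMap
        (fun _ => (toT y z : E →L[ℂ] E).toLinearMap))
      (fun w => by
        have h2 := (HC_iff.mp hs y) (Sum.elim v w)
        refine h2.congr_of_eventuallyEq (Filter.Eventually.of_forall fun z => ?_)
        simp only [MultilinearMap.compLinearMap_apply, MultilinearMap.currySum_apply']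
        congr 1
        funext i
        cases i <;> rfl)
  refine h1.congr_of_eventuallyEq ?_
  filter_upwards [(chartAt E y).open_source.mem_nhds (mem_chart_source E y)] with z hz
  rw [ctr_apply]
  congr 1
  ext w
  simp only [MultilinearMap.compLinearMap_apply]
  congr 1
  funext i
  exact (toT_ofT hz _).symm

end MP_d4c35b_ag.TG
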