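import Pool.Agent.Lib.MP_d4c35b_ag.TG.Read
import Pool.Agent.Lib.MP_d4c35b_ag.TG.Ops

set_option linter.unusedSectionVars false

open scoped Manifold ContDiff Topology TensorProduct
open Function Set

namespace MP_d4c35b_ag.TG

open MP_d4c35b_ag.Read hiding Etale

variable {E : Type} [NormedAddCommGroup E] [NormedSpace ℂ E] [FiniteDimensional ℂ E]
variable {X : Type} [TopologicalSpace X] [ChartedSpace E X] [IsManifold 𝓘(ℂ, E) ω X]

/-- vector fields in the chart at `x₀` -/
theorem vf_at {V : Field E X} {x₀ x : X} (hx : x ∈ (chartAt E x₀).source) :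
    MDifferentiableAt 𝓘(ℂ, E) 𝓘(ℂ, E).tangent (fun z => (⟨z, V z⟩ : TangentBundle 𝓘(ℂ, E) X)) x ↔
      MDifferentiableAt 𝓘(ℂ, E) 𝓘(ℂ, E) (fun z => (ofT x₀ z : E →L[ℂ] E) (V z)) x := by
  have : IsManifold 𝓘(ℂ, E) (1 + 1) X := IsManifold.of_le (n := ω) le_top
  have h := (trivializationAt E (TangentSpace 𝓘(ℂ, E)) x₀).mdifferentiableAt_section_iff
    𝓘(ℂ, E) V (b₀ := x) hx
  exact h

theorem holField_chart (x₀ : X) (v : E) :
    HolField (chartAt E x₀).source (fun x => (toT x₀ x : E →L[ℂ] E) v : Field E X) := by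
  intro x hx
  refine MDifferentiableAt.mdifferentiableWithinAt ?_
  rw [vf_at hx]
  refine (mdifferentiableAt_const (c := v)).congr_of_eventuallyEq ?_
  filter_upwards [(chartAt E x₀).open_source.mem_nhds hx] with z hz
  exact ofT_toT hz v

theorem holField_mono {U U' : Set X} (h : U' ⊆ U) {V : Field E X} (hV : HolField U V) :
    HolField U' V := MDifferentiableOn.mono hV h

/-- coordinates of a holomorphic vector field in the chart of the point -/
theorem holField_at {U : Set X} (hU : IsOpen U) {V : Field E X} (hV : HolField U V) {x : X}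
    (hx : x ∈ U) :
    MDifferentiableAt 𝓘(ℂ, E) 𝓘(ℂ, E) (fun z => (ofT x z : E →L[ℂ] E) (V z)) x := by
  rw [← vf_at (mem_chart_source E x)]
  exact (hV x hx).mdifferentiableAt (hU.mem_nhds hx)

theorem HC_of_holCov {p : ℕ} {s : Cov E X p} (hs : HolCov s) :
    HC (E := E) (X := X) (ι := Fin p) s := by
  intro x₀ v
  exact hs (chartAt E x₀).source (chartAt E x₀).open_source
    (fun i x => (toT x₀ x : E →L[ℂ] E) (v i)) (fun i => holField_chart x₀ (v i))

theorem H1at_of_holForm {U : Set X} (hU : IsOpen U) {η : Form E X} (hη : HolForm U η) {x : X}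
    (hx : x ∈ U) : H1at (E := E) (X := X) η x := by
  intro v
  have h := hη (U ∩ (chartAt E x).source) (hU.inter (chartAt E x).open_source) inter_subset_left
    (fun z => (toT x z : E →L[ℂ] E) v)
    (holField_mono inter_subset_right (holField_chart x v)) x ⟨hx, mem_chart_source E x⟩
  exact h.mdifferentiableAt
    ((hU.inter (chartAt E x).open_source).mem_nhds ⟨hx, mem_chart_source E x⟩)

theorem holForm_of_H1at {U : Set X} {η : Form E X}
    (h : ∀ x ∈ U, H1at (E := E) (X := X) η x) : HolForm U η := by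
  intro U' hU' hUU V hV x hx
  refine MDifferentiableAt.mdifferentiableWithinAt ?_
  have h1 := da_H1 (f := fun z : X => z) (h x (hUU hx)) mdifferentiableAt_id
    (c := fun z => (ofT x z : E →L[ℂ] E) (V z)) (holField_at hU' hV hx)
  refine h1.congr_of_eventuallyEq ?_
  filter_upwards [(chartAt E x).open_source.mem_nhds (mem_chart_source E x)] with z hz
  have h2 := toT_ofT hz (V z)
  exact congrArg (η z) h2.symm

theorem holForm_iff {η : Form E X} : HolForm univ η ↔ H1 (E := E) (X := X) η := by
  rw [H1_iff]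
  exact ⟨fun h x => H1at_of_holForm isOpen_univ h (mem_univ x),
    fun h => holForm_of_H1at (fun x _ => h x)⟩

/-- functional on `k`-linear forms given by a tensor -/
noncomputable def funl {k : ℕ} (τ : Contra E X k) : X → MM E (Fin k) →ₗ[ℂ] ℂ :=
  fun x => (LinearMap.applyₗ (τ x)).comp
    (PiTensorProduct.lift (R := ℂ) (s := fun _ : Fin k => TangentSpace 𝓘(ℂ, E) x)
      (E := ℂ)).toLinearMap

theorem funl_apply {k : ℕ} (τ : Contra E X k) (x : X) (m : MM E (Fin k)) :
    funl τ x m = PiTensorProduct.lift (R := ℂ)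
      (s := fun _ : Fin k => TangentSpace 𝓘(ℂ, E) x) (E := ℂ) m (τ x) := rfl

theorem HK_of_holContra {k : ℕ} {τ : Contra E X k} (hτ : HolContra τ) : HK (funl τ) := by
  classical
  intro x₀ m
  set b := Module.finBasis ℂ E with hb
  have h1 := mm_exp b m LinearMap.id LinearMap.id (fun v => rfl)
  have h2 : (fun x => funl τ x (m.compLinearMap
      (fun _ => (ofT x₀ x : E →L[ℂ] E).toLinearMap))) =
      fun x => ∑ I : Fin k → Fin (Module.finrank ℂ E), m (fun i => b (I i)) *
        pairing (fun i x => (b.coord (I i)).comp (ofT x₀ x : E →L[ℂ] E).toLinearMap) τ x := by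
    funext x
    have h3 : m.compLinearMap (fun _ => (ofT x₀ x : E →L[ℂ] E).toLinearMap) =
        ∑ I : Fin k → Fin (Module.finrank ℂ E), m (fun i => b (I i)) •
          (MultilinearMap.mkPiAlgebra ℂ (Fin k) ℂ).compLinearMap
            (fun i => (b.coord (I i)).comp (ofT x₀ x : E →L[ℂ] E).toLinearMap) := by
      conv_lhs => rw [h1]
      ext w
      simp [EI_apply]
    rw [h3, map_sum]
    refine Finset.sum_congr rfl fun I _ => ?_
    rw [map_smul, smul_eq_mul]
    rfl
  rw [h2]
  intro x hx
  refine MDifferentiableAt.mdifferentiableWithinAt ?_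
  refine da_sum fun I => da_mul (da_const _ _) ?_
  have h4 := hτ (chartAt E x₀).source (chartAt E x₀).open_source
    (fun i x => (b.coord (I i)).comp (ofT x₀ x : E →L[ℂ] E).toLinearMap) (fun i => by
      intro U' hU' hUU V hV y hy
      refine MDifferentiableAt.mdifferentiableWithinAt ?_
      have h5 : MDifferentiableAt 𝓘(ℂ, E) 𝓘(ℂ, E) (fun z => (ofT x₀ z : E →L[ℂ] E) (V z)) y := by
        rw [← vf_at (hUU hy)]
        exact (hV y hy).mdifferentiableAt (hU'.mem_nhds hy)
      exact da_coord h5 (b.coord (I i))) x hx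
  exact h4.mdifferentiableAt ((chartAt E x₀).open_source.mem_nhds hx)

theorem GG_of_generatedAt {k : ℕ} {x₀ : X} (h : GeneratedAt (E := E) k x₀) :
    GG (E := E) k x₀ := by
  intro v
  obtain ⟨τ, hτ, hτ0⟩ := h (PiTensorProduct.tprod ℂ v)
  refine ⟨funl τ, HK_of_holContra hτ, ?_⟩
  intro m
  rw [funl_apply, hτ0]
  exact PiTensorProduct.lift.tprod _

end MP_d4c35b_ag.TG
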