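import Pool.Agent.Lib.MP_d4c35b_ag.TG.Basic

set_option linter.unusedSectionVars false

open Function Set

namespace MP_d4c35b_ag.TG

variable {E : Type} [NormedAddCommGroup E] [NormedSpace ℂ E]

/-- `θ ⊗ θ` is a symmetric tensor -/
def SymSq {k : ℕ} (θ : MM E (Fin k)) : Prop :=
  ∀ (σ : Equiv.Perm (Fin k ⊕ Fin k)) (v : Fin k ⊕ Fin k → E),
    θ (fun i => v (σ (Sum.inl i))) * θ (fun i => v (σ (Sum.inr i))) =
      θ (fun i => v (Sum.inl i)) * θ (fun i => v (Sum.inr i))

/-- exchange of one argument -/
theorem SymSq.exch {k : ℕ} {θ : MM E (Fin k)} (h : SymSq θ) (v w : Fin k → E) (i j : Fin k) :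
    θ (Function.update v i (w j)) * θ (Function.update w j (v i)) = θ v * θ w := by
  have h1 := h (Equiv.swap (Sum.inl i) (Sum.inr j)) (Sum.elim v w)
  simp only [Sum.elim_inl, Sum.elim_inr] at h1
  have h2 : (fun a => (Sum.elim v w : Fin k ⊕ Fin k → E)
      (Equiv.swap (Sum.inl i) (Sum.inr j) (Sum.inl a))) = Function.update v i (w j) := by
    funext a
    by_cases ha : a = i
    · subst ha; simp
    · rw [Equiv.swap_apply_of_ne_of_ne (by simpa using ha) (by simp)]
      simp [Function.update_of_ne ha]
  have h3 : (fun a => (Sum.elim v w : Fin k ⊕ Fin k → E)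
      (Equiv.swap (Sum.inl i) (Sum.inr j) (Sum.inr a))) = Function.update w j (v i) := by
    funext a
    by_cases ha : a = j
    · subst ha; simp
    · rw [Equiv.swap_apply_of_ne_of_ne (by simp) (by simpa using ha)]
      simp [Function.update_of_ne ha]
  rw [h2, h3] at h1
  exact h1

theorem SymSq.perm {k : ℕ} {θ : MM E (Fin k)} (h : SymSq θ) (σ : Equiv.Perm (Fin k))
    (v : Fin k → E) : θ (fun i => v (σ i)) = θ v := by
  by_cases h0 : θ = 0
  · simp [h0]
  obtain ⟨w, hw⟩ : ∃ w, θ w ≠ 0 := by
    by_contra hcon
    push Not at hcon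
    exact h0 (MultilinearMap.ext hcon)
  have h1 := h (Equiv.sumCongr σ (Equiv.refl _)) (Sum.elim v w)
  simp only [Equiv.sumCongr_apply, Sum.map_inl, Sum.map_inr, Sum.elim_inl, Sum.elim_inr,
    Equiv.refl_apply] at h1
  exact mul_right_cancel₀ hw h1

/-- there is a vector with `θ(w, …, w) ≠ 0` -/
theorem SymSq.exists_diag {k : ℕ} {θ : MM E (Fin k)} (h : SymSq θ) (h0 : θ ≠ 0) (hk : 1 ≤ k) :
    ∃ w : E, θ (fun _ => w) ≠ 0 := by
  classical
  obtain ⟨v, hv⟩ : ∃ w, θ w ≠ 0 := by
    by_contra hcon
    push Not at hcon
    exact h0 (MultilinearMap.ext hcon)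
  set a : E := v ⟨0, by omega⟩ with ha
  -- replace the first `m` arguments by `a`
  have key : ∀ m : ℕ, m ≤ k → θ (fun i => if (i : ℕ) < m then a else v i) ≠ 0 := by
    intro m
    induction m with
    | zero => intro _; simpa using hv
    | succ m ih =>
      intro hm
      have h1 := ih (by omega)
      rcases Nat.eq_zero_or_pos m with hm0 | hmpos
      · subst hm0
        have : (fun i : Fin k => if (i : ℕ) < 0 + 1 then a else v i) = v := by
          funext i
          by_cases hi : (i : ℕ) < 1
          · have : i = ⟨0, by omega⟩ := Fin.ext (by simpa using Nat.lt_one_iff.mp hi)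
            simp [hi, ha, this]
          · simp [hi]
        rw [this]; exact hv
      · set u : Fin k → E := fun i => if (i : ℕ) < m then a else v i with hu
        have h2 := h.exch u u ⟨m, by omega⟩ ⟨0, by omega⟩
        have h3 : Function.update u ⟨m, by omega⟩ (u ⟨0, by omega⟩) =
            fun i : Fin k => if (i : ℕ) < m + 1 then a else v i := by
          funext i
          by_cases hi : i = ⟨m, by omega⟩
          · subst hi
            simp [hu, hmpos]
          · rw [Function.update_of_ne hi]
            simp only [hu]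
            have hi' : (i : ℕ) ≠ m := fun h => hi (Fin.ext h)
            by_cases h5 : (i : ℕ) < m
            · simp [h5, Nat.lt_succ_of_lt h5]
            · have : ¬ (i : ℕ) < m + 1 := by omega
              simp [h5, this]
        rw [h3] at h2
        intro h4
        rw [h4, zero_mul] at h2
        exact (mul_ne_zero h1 h1) h2.symm
  refine ⟨a, ?_⟩
  have h5 := key k le_rfl
  have h6 : (fun i : Fin k => if (i : ℕ) < k then a else v i) = fun _ => a := by
    funext i; simp
  rwa [h6] at h5

/-- the formula for the root -/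
theorem SymSq.root {k : ℕ} {θ : MM E (Fin (k + 1))} (h : SymSq θ) (w : E)
    (hw : θ (fun _ => w) ≠ 0) (v : Fin (k + 1) → E) :
    (∏ i, θ (Function.update (fun _ => w) 0 (v i))) = θ v * θ (fun _ => w) ^ k := by
  classical
  -- replace arguments one after the other
  have hupd : ∀ (i : Fin (k + 1)) (u : E),
      θ (Function.update (fun _ => w) i u) = θ (Function.update (fun _ => w) 0 u) := by
    intro i u
    have h1 := h.perm (Equiv.swap 0 i) (Function.update (fun _ => w) i u)
    rw [← h1]
    congr 1
    funext a
    by_cases ha : a = 0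
    · subst ha
      simp
    · rw [Function.update_of_ne ha]
      by_cases hb : a = i
      · subst hb
        rw [Equiv.swap_apply_right]
        rw [Function.update_of_ne (Ne.symm ha)]
      · rw [Equiv.swap_apply_of_ne_of_ne ha hb, Function.update_of_ne hb]
  have key : ∀ m : ℕ, m ≤ k + 1 →
      (∏ i : Fin (k + 1), if (i : ℕ) < m then θ (Function.update (fun _ => w) 0 (v i)) else 1) *
        θ (fun _ => w) =
      θ (fun i => if (i : ℕ) < m then v i else w) * θ (fun _ => w) ^ m := by
    intro m
    induction m with
    | zero => intro _; simp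
    | succ m ih =>
      intro hm
      have h1 := ih (by omega)
      have h2 := h.exch (fun i : Fin (k + 1) => if (i : ℕ) < m then v i else w)
        (Function.update (fun _ => w) ⟨m, by omega⟩ (v ⟨m, by omega⟩)) ⟨m, by omega⟩
        ⟨m, by omega⟩
      simp only [Function.update_self, lt_self_iff_false, if_false, Function.update_idem] at h2
      have h3 : Function.update (fun i : Fin (k + 1) => if (i : ℕ) < m then v i else w)
          ⟨m, by omega⟩ (v ⟨m, by omega⟩) =
          fun i : Fin (k + 1) => if (i : ℕ) < m + 1 then v i else w := by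
        funext i
        by_cases hi : i = ⟨m, by omega⟩
        · subst hi
          simp
        · rw [Function.update_of_ne hi]
          have hi' : (i : ℕ) ≠ m := fun h => hi (Fin.ext h)
          by_cases h5 : (i : ℕ) < m
          · simp [h5, Nat.lt_succ_of_lt h5]
          · have : ¬ (i : ℕ) < m + 1 := by omega
            simp [h5, this]
      have h4 : Function.update (fun _ : Fin (k + 1) => w) ⟨m, by omega⟩ w = fun _ => w := by
        funext i
        by_cases hi : i = ⟨m, by omega⟩
        · subst hi; simp
        · rw [Function.update_of_ne hi]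
      rw [h3, h4, hupd] at h2
      have h5 : (∏ i : Fin (k + 1), if (i : ℕ) < m + 1 then
          θ (Function.update (fun _ => w) 0 (v i)) else 1) =
          (∏ i : Fin (k + 1), if (i : ℕ) < m then
          θ (Function.update (fun _ => w) 0 (v i)) else 1) *
          θ (Function.update (fun _ => w) 0 (v ⟨m, by omega⟩)) := by
        have h6 : ∀ i : Fin (k + 1), (if (i : ℕ) < m + 1 then
            θ (Function.update (fun _ => w) 0 (v i)) else 1) =
            (if (i : ℕ) < m then θ (Function.update (fun _ => w) 0 (v i)) else 1) *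
            (if i = ⟨m, by omega⟩ then θ (Function.update (fun _ => w) 0 (v i)) else 1) := by
          intro i
          by_cases hi : i = ⟨m, by omega⟩
          · subst hi
            simp
          · have hi' : (i : ℕ) ≠ m := fun h => hi (Fin.ext h)
            by_cases h5 : (i : ℕ) < m
            · simp [h5, Nat.lt_succ_of_lt h5, hi]
            · have : ¬ (i : ℕ) < m + 1 := by omega
              simp [h5, this, hi]
        rw [Finset.prod_congr rfl fun i _ => h6 i, Finset.prod_mul_distrib]
        congr 1
        rw [Finset.prod_ite_eq' Finset.univ (⟨m, by omega⟩ : Fin (k + 1))]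
        simp
      rw [h5, pow_succ]
      calc _ = ((∏ i : Fin (k + 1), if (i : ℕ) < m then
          θ (Function.update (fun _ => w) 0 (v i)) else 1) * θ (fun _ => w)) *
          θ (Function.update (fun _ => w) 0 (v ⟨m, by omega⟩)) := by ring
        _ = (θ (fun i => if (i : ℕ) < m then v i else w) *
          θ (Function.update (fun _ => w) 0 (v ⟨m, by omega⟩))) * θ (fun _ => w) ^ m := by
            rw [h1]; ring
        _ = _ := by rw [← h2]; ring
  have h1 := key (k + 1) le_rfl
  have h2 : (∏ i : Fin (k + 1), if (i : ℕ) < k + 1 then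
      θ (Function.update (fun _ => w) 0 (v i)) else 1) =
      ∏ i, θ (Function.update (fun _ => w) 0 (v i)) :=
    Finset.prod_congr rfl fun i _ => if_pos i.2
  have h3 : (fun i : Fin (k + 1) => if (i : ℕ) < k + 1 then v i else w) = v := by
    funext i; exact if_pos i.2
  rw [h2, h3, pow_succ] at h1
  have h4 : (∏ i, θ (Function.update (fun _ => w) 0 (v i))) * θ (fun _ => w) =
      (θ v * θ (fun _ => w) ^ k) * θ (fun _ => w) := by rw [h1]; ring
  exact mul_right_cancel₀ hw h4

/-- two roots differ by a root of unity -/
theorem root_ratio {k : ℕ} {b b' : E →ₗ[ℂ] ℂ} (hb : b ≠ 0)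
    (h : ∀ v : Fin (k + 1) → E, ∏ i, b (v i) = ∏ i, b' (v i)) :
    ∃ ζ : ℂ, ζ ^ (k + 1) = 1 ∧ b' = ζ • b := by
  obtain ⟨w, hw⟩ : ∃ v, b v ≠ 0 := by
    by_contra hcon
    push Not at hcon
    exact hb (LinearMap.ext hcon)
  have h1 := h (fun _ => w)
  simp only [Finset.prod_const, Finset.card_univ, Fintype.card_fin] at h1
  have hw' : b' w ≠ 0 := by
    intro h2
    rw [h2, zero_pow (by omega)] at h1
    exact hw (pow_eq_zero_iff (by omega) |>.mp h1)
  refine ⟨b' w / b w, ?_, ?_⟩
  · rw [div_pow, ← h1, div_self (pow_ne_zero _ hw)]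
  · ext u
    have h2 := h (Fin.cons u (fun _ => w))
    rw [Fin.prod_univ_succ, Fin.prod_univ_succ] at h2
    simp only [Fin.cons_zero, Fin.cons_succ, Finset.prod_const, Finset.card_univ,
      Fintype.card_fin] at h2
    rw [LinearMap.smul_apply, smul_eq_mul]
    -- b u * b w ^ k = b' u * b' w ^ k
    have h3 : b' u * b' w ^ (k + 1) = (b u * b w ^ k) * b' w := by rw [h2]; ring
    rw [← h1] at h3
    have h4 : b' u * b w ^ (k + 1) = b u * b w ^ k * b' w := h3
    have h5 : b w ^ (k + 1) ≠ 0 := pow_ne_zero _ hw
    apply mul_right_cancel₀ h5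
    rw [h4, pow_succ]
    field_simp

end MP_d4c35b_ag.TG
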