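import Pool.Agent.Lib.MP_d4c35b_ag.TG.Ops
import Pool.Agent.Lib.MP_d4c35b_ag.TG.Root

set_option linter.unusedSectionVars false

open scoped Manifold ContDiff Topology
open Function Set

namespace MP_d4c35b_ag.TG

variable {E : Type} [NormedAddCommGroup E] [NormedSpace ℂ E] [FiniteDimensional ℂ E]
variable {X : Type} [TopologicalSpace X] [ChartedSpace E X] [IsManifold 𝓘(ℂ, E) ω X]

theorem local_root {k : ℕ} {θ : X → MM E (Fin (k + 1))} (hθ : HC θ)
    (hs : ∀ x, SymSq (θ x)) (h0 : ∀ x, θ x ≠ 0) (x₁ : X) :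
    ∃ (U : Set X) (β : X → E →ₗ[ℂ] ℂ), IsOpen U ∧ x₁ ∈ U ∧ (∀ x ∈ U, H1at β x) ∧
      (∀ x ∈ U, β x ≠ 0) ∧ ∀ x ∈ U, ∀ v : Fin (k + 1) → E, ∏ i, β x (v i) = θ x v := by
  classical
  obtain ⟨w, hw⟩ := (hs x₁).exists_diag (h0 x₁) (by omega)
  set c : X → ℂ := fun x => θ x (fun _ => toT x₁ x w) with hc
  have hc1 : c x₁ = θ x₁ (fun _ => w) := by
    simp only [hc, toT_self]
  have hc1' : c x₁ ≠ 0 := by rw [hc1]; exact hw
  have hcd : MDifferentiableOn 𝓘(ℂ, E) 𝓘(ℂ) c (chartAt E x₁).source := hθ x₁ (fun _ => w)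
  set U : Set X := (chartAt E x₁).source ∩ (fun x => c x / c x₁) ⁻¹' Complex.slitPlane with hU
  have hUo : IsOpen U := by
    refine ContinuousOn.isOpen_inter_preimage ?_ (chartAt E x₁).open_source
      Complex.isOpen_slitPlane
    exact hcd.continuousOn.div_const _
  obtain ⟨γ₁, hγ₁⟩ : ∃ z : ℂ, z ^ (k + 1) = c x₁ :=
    IsAlgClosed.exists_pow_nat_eq (c x₁) (by omega)
  set γ : X → ℂ := fun x => γ₁ * (c x / c x₁) ^ (((k + 1 : ℕ) : ℂ)⁻¹) with hγ
  have hγp : ∀ x, γ x ^ (k + 1) = c x := by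
    intro x
    simp only [hγ]
    rw [mul_pow, hγ₁, Complex.cpow_nat_inv_pow _ (by omega)]
    field_simp
  have hcne : ∀ x ∈ U, c x ≠ 0 := by
    intro x hx h
    have h1 : c x / c x₁ ∈ Complex.slitPlane := hx.2
    rw [h, zero_div] at h1
    exact Complex.zero_notMem_slitPlane h1
  have hγne : ∀ x ∈ U, γ x ≠ 0 := by
    intro x hx h
    have h1 := hγp x
    rw [h, zero_pow (by omega)] at h1
    exact hcne x hx h1.symm
  set β : X → E →ₗ[ℂ] ℂ := fun x =>
    (γ x ^ k)⁻¹ • (θ x).toLinearMap (fun _ => toT x₁ x w) 0 with hβ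
  have hβa : ∀ x u, β x u = (γ x ^ k)⁻¹ * θ x (Function.update (fun _ => toT x₁ x w) 0 u) :=
    fun x u => rfl
  have hprod : ∀ x ∈ U, ∀ v : Fin (k + 1) → E, ∏ i, β x (v i) = θ x v := by
    intro x hx v
    simp only [hβa]
    rw [Finset.prod_mul_distrib, (hs x).root (toT x₁ x w) (hcne x hx) v]
    simp only [Finset.prod_const, Finset.card_univ, Fintype.card_fin]
    have h1 : θ x (fun _ => toT x₁ x w) = γ x ^ (k + 1) := (hγp x).symm
    rw [h1]
    have h2 := hγne x hx
    have h3 : ((γ x ^ k)⁻¹) ^ (k + 1) * (γ x ^ (k + 1)) ^ k = 1 := by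
      rw [inv_pow, ← pow_mul, ← pow_mul, mul_comm k (k + 1)]
      exact inv_mul_cancel₀ (pow_ne_zero _ h2)
    calc ((γ x ^ k)⁻¹) ^ (k + 1) * (θ x v * (γ x ^ (k + 1)) ^ k)
        = (((γ x ^ k)⁻¹) ^ (k + 1) * (γ x ^ (k + 1)) ^ k) * θ x v := by ring
      _ = θ x v := by rw [h3, one_mul]
  refine ⟨U, β, hUo, ⟨mem_chart_source E x₁, ?_⟩, ?_, ?_, hprod⟩
  · change c x₁ / c x₁ ∈ Complex.slitPlane
    rw [div_self hc1']
    exact Complex.one_mem_slitPlane
  · intro y hy v
    have hyc : DA (E := E) c y :=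
      (hcd y hy.1).mdifferentiableAt ((chartAt E x₁).open_source.mem_nhds hy.1)
    have hγd : DA (E := E) γ y := by
      refine da_mul (da_const _ _) ?_
      have h1 : DA (E := E) (fun x => c x / c x₁) y := by
        have := da_mul hyc (da_const (c x₁)⁻¹ y)
        simpa [div_eq_mul_inv] using this
      have h2 : DifferentiableAt ℂ (fun z : ℂ => z ^ (((k + 1 : ℕ) : ℂ)⁻¹)) (c y / c x₁) :=
        (differentiableAt_id).cpow_const hy.2
      exact h2.mdifferentiableAt.comp y h1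
    have h3 : DA (E := E) (fun z => (γ z ^ k)⁻¹) y :=
      MDifferentiableAt.inv (MDifferentiableAt.pow hγd k) (pow_ne_zero _ (hγne y hy))
    have h4 := da_HC (f := fun z : X => z) (HC_iff.mp hθ y) mdifferentiableAt_id
      (c := fun z i => Function.update (fun _ : Fin (k + 1) =>
        (tangentCoordChange 𝓘(ℂ, E) x₁ y z : E →L[ℂ] E) w) 0 v i)
      (fun i => by
        by_cases hi : i = 0
        · subst hi
          simp only [Function.update_self]
          exact mdifferentiableAt_const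
        · simp only [Function.update_of_ne hi]
          exact da_tcc hy.1 (mem_chart_source E y) w)
    refine (da_mul h3 h4).congr_of_eventuallyEq ?_
    filter_upwards [nhds_src x₁ y hy.1] with z hz
    rw [hβa]
    congr 2
    funext i
    by_cases hi : i = 0
    · subst hi
      simp
    · rw [Function.update_of_ne hi, Function.update_of_ne hi]
      exact toT_change hz.1 hz.2 w
  · intro x hx h
    obtain ⟨v, hv⟩ : ∃ v, θ x v ≠ 0 := by
      by_contra hcon
      push Not at hcon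
      exact h0 x (MultilinearMap.ext hcon)
    apply hv
    rw [← hprod x hx v, h]
    exact Finset.prod_eq_zero (Finset.mem_univ 0) rfl

end MP_d4c35b_ag.TG
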