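import Mathlib

/-!
Two auxiliary statements for THEOREM G of MP_d4c35b_ag.
-/

set_option autoImplicit false

open scoped Manifold ContDiff Topology
open Function Set

namespace MP_d4c35b_ag.TG

/-- LH: the complex structure pulled back by a local homeomorphism `f : Y → X`.
Proof: for `y : Y` let `e_y := (hf y).choose` (an `OpenPartialHomeomorph Y X` with `y ∈ source`
and `f = e_y`), and take `chartAt y := e_y ≫ₕ chartAt E (f y)`.  On overlaps the transition map
`(chartAt y)⁻¹ ≫ chartAt y'` coincides with the transition map
`(chartAt (f y))⁻¹ ≫ chartAt (f y')` of `X` (as `e_y` and `e_y'` are both restrictions of `f`),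
which is `ContDiffOn ℂ ω`; use `isManifold_of_contDiffOn`.  In the charts at `y` and `f y` the
map `f` is the identity; for `IsLocalDiffeomorph` use `e_y` itself as a `PartialDiffeomorph`
(`ContMDiffOn` of `e_y` and of `e_y.symm`, in charts this is the identity map). -/
def S_LH : Prop :=
  ∀ (E : Type) [NormedAddCommGroup E] [NormedSpace ℂ E] [FiniteDimensional ℂ E]
    (X : Type) [TopologicalSpace X] [ChartedSpace E X] [IsManifold 𝓘(ℂ, E) ω X]
    (Y : Type) [TopologicalSpace Y] (f : Y → X), IsLocalHomeomorph f →
    ∃ (_ : ChartedSpace E Y), IsManifold 𝓘(ℂ, E) ω Y ∧ IsLocalDiffeomorph 𝓘(ℂ, E) 𝓘(ℂ, E) ω f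

/-- TOP: the finite cover defined by a Čech cocycle with values in the `n`-th roots of unity.
Proof: let `F := {ζ : ℂ // ζ ^ n = 1}` (subspace topology; finite and T1, hence discrete, and
`1 ∈ F`).  Take the `FiberBundleCore X X F` with `baseSet i = U i`, `indexAt x = x`,
`coordChange i j x ζ = ζ * r i j x` if `x ∈ U i ∩ U j` (and `= ζ` otherwise).  Its total space `T`
with the projection is a fiber bundle with discrete fibre, hence a covering map
(`FiberBundle.isCoveringMap` or the like), so the projection is a local homeomorphism, `T` is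
T2 (`IsCoveringMap.isSeparatedMap` and `T2Space X`), and `T` is compact (each `x` has a compact
neighbourhood contained in `U x`; finitely many of them cover `X`; the part of `T` over each of
them is the image of a compact set under the inverse of the local trivialisation, `F` being
finite).  Put `c i y :=` the fibre coordinate of `y` in the local trivialisation `i`.  Let `Y` be
a connected component of `T` (a point of `T` exists since `X` is nonempty).  It is closed, hence
compact, and open, since `T` is locally connected (local homeomorphism to the locally connected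
`X`). -/
def S_TOP : Prop :=
  ∀ (X : Type) [TopologicalSpace X] [T2Space X] [CompactSpace X] [Nonempty X]
    [LocallyConnectedSpace X] (n : ℕ), 1 ≤ n →
    ∀ (U : X → Set X) (r : X → X → X → ℂ),
      (∀ i, IsOpen (U i)) → (∀ i, i ∈ U i) →
      (∀ i j x, x ∈ U i → x ∈ U j → r i j x ^ n = 1) →
      (∀ i j, ContinuousOn (r i j) (U i ∩ U j)) →
      (∀ i j l x, x ∈ U i → x ∈ U j → x ∈ U l → r i j x * r j l x = r i l x) →
      ∃ (Y : Type) (_ : TopologicalSpace Y) (f : Y → X) (c : X → Y → ℂ),
        T2Space Y ∧ CompactSpace Y ∧ ConnectedSpace Y ∧ IsLocalHomeomorph f ∧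
        (∀ i y, f y ∈ U i → c i y ^ n = 1) ∧
        (∀ i, ContinuousOn (c i) (f ⁻¹' U i)) ∧
        (∀ i j y, f y ∈ U i → f y ∈ U j → c i y * r i j (f y) = c j y)

end MP_d4c35b_ag.TG
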