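import Pool.Agent.Lib.MP_d4c35b_ag.TG.Surj
import Pool.Agent.Lib.MP_d4c35b_ag.TG.LRoot
import Pool.Agent.Lib.MP_d4c35b_ag.TG.Spec

set_option linter.unusedSectionVars false

open scoped Manifold ContDiff Topology
open Function Set

namespace MP_d4c35b_ag.TG

/-- a continuous function with values in the `n`-th roots of unity is locally constant -/
theorem root_loc_const {Y : Type} [TopologicalSpace Y] {n : ℕ} (hn : 1 ≤ n) {V : Set Y}
    (hV : IsOpen V) {c : Y → ℂ} (hc : ContinuousOn c V) (h1 : ∀ y ∈ V, c y ^ n = 1) {y : Y}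
    (hy : y ∈ V) : ∀ᶠ z in 𝓝 y, c z = c y := by
  have hfin : ({ζ : ℂ | ζ ^ n = 1} \ {c y}).Finite := by
    refine Set.Finite.subset (s := ((Polynomial.X ^ n - 1 : Polynomial ℂ).rootSet ℂ)) ?_ ?_
    · exact Polynomial.rootSet_finite _ _
    · intro ζ hζ
      have hne : (Polynomial.X ^ n - 1 : Polynomial ℂ) ≠ 0 :=
        (Polynomial.monic_X_pow_sub_C (1 : ℂ) (by omega)).ne_zero
      rw [Polynomial.mem_rootSet]
      refine ⟨hne, ?_⟩
      have h2 : ζ ^ n = 1 := hζ.1
      simp [h2]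
  have hop : IsOpen ({ζ : ℂ | ζ ^ n = 1} \ {c y})ᶜ := hfin.isClosed.isOpen_compl
  have hmem : c y ∈ ({ζ : ℂ | ζ ^ n = 1} \ {c y})ᶜ := by simp
  have hca : ContinuousAt c y := hc.continuousAt (hV.mem_nhds hy)
  filter_upwards [hca.eventually (hop.mem_nhds hmem), hV.mem_nhds hy] with z hz hzV
  by_contra hne
  exact hz ⟨h1 z hzV, hne⟩

variable {E : Type} [NormedAddCommGroup E] [NormedSpace ℂ E] [FiniteDimensional ℂ E]
variable {X : Type} [TopologicalSpace X] [ChartedSpace E X]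

theorem exists_cover (hLH : S_LH) (hTOP : S_TOP) [CCM E X] {k : ℕ}
    {θ : X → MM E (Fin (k + 1))} (hθ : HC θ) (hs : ∀ x, SymSq (θ x)) (h0 : ∀ x, θ x ≠ 0) :
    ∃ (Y : Type) (_ : TopologicalSpace Y) (_ : ChartedSpace E Y) (_ : CCM E Y) (f : Y → X),
      Etale E f ∧ ∃ η : Y → E →ₗ[ℂ] ℂ, H1 η ∧ η ≠ 0 := by
  classical
  choose U β hUo hU hβ hβ0 hβp using fun x₁ : X => local_root hθ hs h0 x₁
  -- the ratios
  have hr : ∀ i j x : X, ∃ ζ : ℂ, x ∈ U i → x ∈ U j → ζ ^ (k + 1) = 1 ∧ β i x = ζ • β j x := by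
    intro i j x
    by_cases hi : x ∈ U i
    · by_cases hj : x ∈ U j
      · obtain ⟨ζ, h1, h2⟩ := root_ratio (k := k) (hβ0 j x hj) (b' := β i x)
          (fun v => by rw [hβp j x hj v, hβp i x hi v])
        exact ⟨ζ, fun _ _ => ⟨h1, h2⟩⟩
      · exact ⟨1, fun _ h => absurd h hj⟩
    · exact ⟨1, fun h => absurd h hi⟩
  choose r hr using hr
  have hrc : ∀ i j, ContinuousOn (r i j) (U i ∩ U j) := by
    intro i j y hy
    refine ContinuousAt.continuousWithinAt ?_
    obtain ⟨w, hw⟩ : ∃ v, β j y v ≠ 0 := by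
      by_contra hcon
      push Not at hcon
      exact hβ0 j y hy.2 (LinearMap.ext hcon)
    have ha : DA (E := E) (fun x => β i x (toT y x w)) y := hβ i y hy.1 w
    have hb : DA (E := E) (fun x => β j x (toT y x w)) y := hβ j y hy.2 w
    have hb0 : (fun x => β j x (toT y x w)) y ≠ 0 := by
      simp only [toT_self]; exact hw
    have hdiv : ContinuousAt (fun x => β i x (toT y x w) / β j x (toT y x w)) y :=
      ha.continuousAt.div hb.continuousAt hb0
    refine hdiv.congr ?_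
    filter_upwards [hb.continuousAt.eventually_ne hb0, (hUo i).mem_nhds hy.1,
      (hUo j).mem_nhds hy.2] with x hx hxi hxj
    have h1 := (hr i j x hxi hxj).2
    rw [h1, LinearMap.smul_apply, smul_eq_mul, mul_div_assoc, div_self hx, mul_one]
  have hcoc : ∀ i j l x, x ∈ U i → x ∈ U j → x ∈ U l → r i j x * r j l x = r i l x := by
    intro i j l x hi hj hl
    have h1 := (hr i j x hi hj).2
    have h2 := (hr j l x hj hl).2
    have h3 := (hr i l x hi hl).2
    rw [h2, smul_smul, h3] at h1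
    have h4 : (r i l x - r i j x * r j l x) • β l x = 0 := by rw [sub_smul, ← h1, sub_self]
    rcases smul_eq_zero.mp h4 with h5 | h5
    · exact (sub_eq_zero.mp h5).symm
    · exact absurd h5 (hβ0 l x hl)
  have : LocallyConnectedSpace X := ChartedSpace.locallyConnectedSpace E X
  obtain ⟨Y, _, f, c, hY1, hY2, hY3, hf, hcn, hcc, hcr⟩ := hTOP X (k + 1) (by omega) U r hUo hU
    (fun i j x hi hj => (hr i j x hi hj).1) hrc hcoc
  obtain ⟨_, hYm, hfe⟩ := hLH E X Y f hf
  have hCCM : CCM E Y := ⟨hY1, hY2, hY3, hYm⟩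
  have hfc : Continuous f := hf.continuous
  have hc0 : ∀ i y, f y ∈ U i → c i y ≠ 0 := by
    intro i y hy h
    have h1 := hcn i y hy
    rw [h, zero_pow (by omega)] at h1
    exact zero_ne_one h1
  refine ⟨Y, _, _, hCCM, f, hfe, fun y => c (f y) y • pull1 f (β (f y)) y, ?_, ?_⟩
  · rw [H1_iff]
    intro y v
    have h1 := H1at_pull1 (hfe y).contMDiffAt (hβ (f y) (f y) (hU (f y))) v
    have h2 := da_mul (da_const (c (f y) y) y) h1
    refine h2.congr_of_eventuallyEq ?_
    have hV : IsOpen (f ⁻¹' U (f y)) := (hUo (f y)).preimage hfc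
    filter_upwards [root_loc_const (n := k + 1) (by omega) hV (hcc (f y)) (hcn (f y)) (hU (f y)),
      hV.mem_nhds (hU (f y))] with z hz hzV
    have h3 := hcr (f y) (f z) z hzV (hU (f z))
    have h4 := (hr (f y) (f z) (f z) hzV (hU (f z))).2
    have h5 : c (f z) z • pull1 f (β (f z)) z = c (f y) z • pull1 f (β (f y)) z := by
      have h6 : pull1 f (β (f y)) z = r (f y) (f z) (f z) • pull1 f (β (f z)) z := by
        ext u
        exact congrArg (fun L : E →ₗ[ℂ] ℂ => L (dd f z u)) h4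
      rw [h6, smul_smul, h3]
    rw [h5, hz]
    rfl
  · intro h
    obtain ⟨y⟩ := (inferInstance : Nonempty Y)
    have h1 := congrFun h y
    have h2 : c (f y) y • pull1 f (β (f y)) y = 0 := h1
    rcases smul_eq_zero.mp h2 with h3 | h3
    · exact hc0 _ y (hU (f y)) h3
    · apply hβ0 (f y) (f y) (hU (f y))
      ext v
      obtain ⟨u, rfl⟩ := dd_surj (hfe y) v
      exact congrArg (fun L : E →ₗ[ℂ] ℂ => L u) h3

end MP_d4c35b_ag.TG
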