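import Mathlib

/-!
Definitions for THEOREM G of MP_d4c35b_ag (compact complex manifolds with a generically globally
generated tensor power of the tangent bundle).  Internal versions: `TangentSpace 𝓘(ℂ, E) x = E` by
definition, so a covariant tensor field with slots `ι` is a function `X → MM E ι`.
-/

open scoped Manifold ContDiff Topology
open Function Set

namespace MP_d4c35b_ag.TG

/-- Multilinear forms with slots `ι`. -/
abbrev MM (E : Type) [NormedAddCommGroup E] [NormedSpace ℂ E] (ι : Type) : Type :=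
  MultilinearMap ℂ (fun _ : ι => E) ℂ

section Fields

variable {E : Type} [NormedAddCommGroup E] [NormedSpace ℂ E]
variable {X : Type} [TopologicalSpace X] [ChartedSpace E X] [IsManifold 𝓘(ℂ, E) ω X]

/-- From coordinates in the chart at `x₀` to `T_xX` (which is `E` by means of the chart at `x`). -/
noncomputable def toT (x₀ x : X) : E →L[ℂ] E := tangentCoordChange 𝓘(ℂ, E) x₀ x x

/-- From `T_xX` to coordinates in the chart at `x₀`. -/
noncomputable def ofT (x₀ x : X) : E →L[ℂ] E := tangentCoordChange 𝓘(ℂ, E) x x₀ x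

/-- Covariant tensor field `s` with slots `ι` is holomorphic. -/
def HC {ι : Type} (s : X → MM E ι) : Prop :=
  ∀ (x₀ : X) (v : ι → E),
    MDifferentiableOn 𝓘(ℂ, E) 𝓘(ℂ) (fun x => s x (fun i => toT x₀ x (v i)))
      (chartAt E x₀).source

/-- The contravariant tensor field `τ` with slots `κ` is holomorphic. -/
def HK {κ : Type} (τ : X → MM E κ →ₗ[ℂ] ℂ) : Prop :=
  ∀ (x₀ : X) (m : MM E κ),
    MDifferentiableOn 𝓘(ℂ, E) 𝓘(ℂ)
      (fun x => τ x (m.compLinearMap (fun _ => (ofT x₀ x : E →L[ℂ] E).toLinearMap)))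
      (chartAt E x₀).source

/-- The field of covectors `η` is holomorphic. -/
def H1 (η : X → E →ₗ[ℂ] ℂ) : Prop :=
  ∀ (x₀ : X) (v : E),
    MDifferentiableOn 𝓘(ℂ, E) 𝓘(ℂ) (fun x => η x (toT x₀ x v)) (chartAt E x₀).source

/-- `T_X^{⊗k}` is globally generated at `x₀`. -/
def GG (k : ℕ) (x₀ : X) : Prop :=
  ∀ v : Fin k → E, ∃ τ : X → MM E (Fin k) →ₗ[ℂ] ℂ, HK τ ∧ ∀ m : MM E (Fin k), τ x₀ m = m v

end Fields

section Ops

variable {E : Type} [NormedAddCommGroup E] [NormedSpace ℂ E] {X : Type}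

/-- Reindexing the slots: `(reix e s)_x (v) = s_x (v ∘ e)`. -/
def reix {ι ι' : Type} (e : ι ≃ ι') (s : X → MM E ι) : X → MM E ι' :=
  fun x => (s x).domDomCongr e

/-- The product `∏_i η(v_i)` over all slots. -/
noncomputable def pw (ι : Type) [Fintype ι] (η : X → E →ₗ[ℂ] ℂ) : X → MM E ι :=
  fun x => (MultilinearMap.mkPiAlgebra ℂ ι ℂ).compLinearMap (fun _ => η x)

/-- The product of two multilinear forms. -/
noncomputable def mulM {ι κ : Type} (a : MM E ι) (b : MM E κ) : MM E (ι ⊕ κ) :=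
  (LinearMap.mul' ℂ ℂ).compMultilinearMap (a.domCoprod b)

/-- Product of two covariant tensor fields. -/
noncomputable def mulF {ι κ : Type} (s : X → MM E ι) (t : X → MM E κ) : X → MM E (ι ⊕ κ) :=
  fun x => mulM (s x) (t x)

/-- Product of the covector fields `η_1, …, η_p`. -/
noncomputable def tp {p : ℕ} (η : Fin p → X → E →ₗ[ℂ] ℂ) : X → MM E (Fin p) :=
  fun x => (MultilinearMap.mkPiAlgebra ℂ (Fin p) ℂ).compLinearMap (fun i => η i x)

/-- Contraction of the slots `κ` of `s` with `τ`. -/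
noncomputable def ctr {ι κ : Type} [DecidableEq ι] [DecidableEq κ] (s : X → MM E (ι ⊕ κ))
    (τ : X → MM E κ →ₗ[ℂ] ℂ) : X → MM E ι :=
  fun x => (τ x).compMultilinearMap (s x).currySum

end Ops

section Maps

variable {E : Type} [NormedAddCommGroup E] [NormedSpace ℂ E]
variable {X : Type} [TopologicalSpace X] [ChartedSpace E X]
variable {Y : Type} [TopologicalSpace Y] [ChartedSpace E Y]

/-- Pull back of a covariant tensor field. -/
noncomputable def pullC {ι : Type} (f : Y → X) (s : X → MM E ι) : Y → MM E ι :=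
  fun y => (s (f y)).compLinearMap (fun _ => (mfderiv 𝓘(ℂ, E) 𝓘(ℂ, E) f y : E →L[ℂ] E).toLinearMap)

/-- Pull back of a covector field. -/
noncomputable def pull1 (f : Y → X) (η : X → E →ₗ[ℂ] ℂ) : Y → E →ₗ[ℂ] ℂ :=
  fun y => (η (f y)).comp (mfderiv 𝓘(ℂ, E) 𝓘(ℂ, E) f y : E →L[ℂ] E).toLinearMap

end Maps

/-- Compact connected complex manifolds (modelled on `E`). -/
class CCM (E : Type) [NormedAddCommGroup E] [NormedSpace ℂ E] (X : Type)
    [TopologicalSpace X] [ChartedSpace E X] : Prop where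
  t2 : T2Space X
  compact : CompactSpace X
  connected : ConnectedSpace X
  manifold : IsManifold 𝓘(ℂ, E) ω X

attribute [instance] CCM.t2 CCM.compact CCM.connected CCM.manifold

/-- Finite etale cover of compact connected complex manifolds = holomorphic local
diffeomorphism. -/
abbrev Etale (E : Type) [NormedAddCommGroup E] [NormedSpace ℂ E]
    {X : Type} [TopologicalSpace X] [ChartedSpace E X]
    {Y : Type} [TopologicalSpace Y] [ChartedSpace E Y] (f : Y → X) : Prop :=
  IsLocalDiffeomorph 𝓘(ℂ, E) 𝓘(ℂ, E) ω f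

/-- THEOREM G. -/
def S_main : Prop :=
  ∀ (E : Type) [NormedAddCommGroup E] [NormedSpace ℂ E] [FiniteDimensional ℂ E]
    (X : Type) [TopologicalSpace X] [ChartedSpace E X] [CCM E X] (k : ℕ), 1 ≤ k →
    (∃ x₀ : X, GG (E := E) k x₀) →
    ∃ (Y : Type) (_ : TopologicalSpace Y) (_ : ChartedSpace E Y) (_ : CCM E Y) (f : Y → X),
      Etale E f ∧
      (∀ η : Y → E →ₗ[ℂ] ℂ, H1 η → ∀ y : Y, η y = 0 → η = 0) ∧
      ∀ (Z : Type) [TopologicalSpace Z] [ChartedSpace E Z] [CCM E Z] (g : Z → Y), Etale E g →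
        ∀ (p : ℕ) (s : Z → MM E (Fin p)), HC s →
          s ∈ Submodule.span ℂ {t : Z → MM E (Fin p) | ∃ η : Fin p → Y → E →ₗ[ℂ] ℂ,
            (∀ i, H1 (η i)) ∧ t = tp (fun i => pull1 g (η i))}

end MP_d4c35b_ag.TG
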