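import Pool.Agent.Lib.MP_d4c35b_ag.TG.Spec

/-!
The complex structure pulled back by a local homeomorphism.
-/

set_option autoImplicit false

open scoped Manifold ContDiff Topology
open Function Set

namespace MP_d4c35b_ag.TG

private noncomputable def pLH_e {X Y : Type} [TopologicalSpace X] [TopologicalSpace Y]
    {f : Y → X} (hf : IsLocalHomeomorph f) (y : Y) : OpenPartialHomeomorph Y X :=
  (hf y).choose

private lemma pLH_mem {X Y : Type} [TopologicalSpace X] [TopologicalSpace Y]
    {f : Y → X} (hf : IsLocalHomeomorph f) (y : Y) : y ∈ (pLH_e hf y).source :=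
  (hf y).choose_spec.1

private lemma pLH_coe {X Y : Type} [TopologicalSpace X] [TopologicalSpace Y]
    {f : Y → X} (hf : IsLocalHomeomorph f) (y : Y) (z : Y) : pLH_e hf y z = f z :=
  (congrFun (hf y).choose_spec.2 z).symm

private lemma pLH_right {X Y : Type} [TopologicalSpace X] [TopologicalSpace Y]
    {f : Y → X} (hf : IsLocalHomeomorph f) (y : Y) (x : X) (hx : x ∈ (pLH_e hf y).target) :
    f ((pLH_e hf y).symm x) = x := by
  rw [← pLH_coe hf y]
  exact (pLH_e hf y).right_inv hx

@[reducible] private noncomputable def pLH_cs (E : Type) [TopologicalSpace E] {X Y : Type}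
    [TopologicalSpace X] [ChartedSpace E X] [TopologicalSpace Y]
    {f : Y → X} (hf : IsLocalHomeomorph f) : ChartedSpace E Y where
  atlas := range (fun y => pLH_e hf y ≫ₕ chartAt E (f y))
  chartAt := fun y => pLH_e hf y ≫ₕ chartAt E (f y)
  mem_chart_source := by
    intro y
    rw [OpenPartialHomeomorph.trans_source]
    refine ⟨pLH_mem hf y, ?_⟩
    rw [mem_preimage, pLH_coe]
    exact mem_chart_source E (f y)
  chart_mem_atlas := fun y => ⟨y, rfl⟩

private lemma pLH_compat (E : Type) [NormedAddCommGroup E] [NormedSpace ℂ E]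
    {X Y : Type} [TopologicalSpace X] [ChartedSpace E X] [IsManifold 𝓘(ℂ, E) ω X]
    [TopologicalSpace Y] {f : Y → X} (hf : IsLocalHomeomorph f) (y₁ y₂ : Y) :
    (pLH_e hf y₁ ≫ₕ chartAt E (f y₁)).symm ≫ₕ (pLH_e hf y₂ ≫ₕ chartAt E (f y₂)) ∈
      contDiffGroupoid ω 𝓘(ℂ, E) := by
  set T := (pLH_e hf y₁ ≫ₕ chartAt E (f y₁)).symm ≫ₕ (pLH_e hf y₂ ≫ₕ chartAt E (f y₂)) with hT
  have hc : (chartAt E (f y₁)).symm ≫ₕ (chartAt E (f y₂)) ∈ contDiffGroupoid ω 𝓘(ℂ, E) :=
    StructureGroupoid.compatible _ (chart_mem_atlas E (f y₁)) (chart_mem_atlas E (f y₂))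
  have hr := closedUnderRestriction' hc T.open_source
  have key : ∀ p ∈ T.source, p ∈ ((chartAt E (f y₁)).symm ≫ₕ (chartAt E (f y₂))).source ∧
      T p = ((chartAt E (f y₁)).symm ≫ₕ (chartAt E (f y₂))) p := by
    intro p hp
    have hp' := hp
    rw [hT, OpenPartialHomeomorph.trans_source, mem_inter_iff,
      OpenPartialHomeomorph.symm_source, OpenPartialHomeomorph.trans_target,
      mem_inter_iff, mem_preimage, mem_preimage, OpenPartialHomeomorph.trans_source,
      mem_inter_iff, mem_preimage] at hp'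
    obtain ⟨⟨h1, h2⟩, h3, h4⟩ := hp'
    rw [pLH_coe] at h4
    have h5 : f (((pLH_e hf y₁) ≫ₕ chartAt E (f y₁)).symm p) = (chartAt E (f y₁)).symm p := by
      rw [OpenPartialHomeomorph.coe_trans_symm, Function.comp_apply]
      exact pLH_right hf y₁ _ h2
    rw [h5] at h4
    refine ⟨?_, ?_⟩
    · rw [OpenPartialHomeomorph.trans_source]
      exact ⟨h1, h4⟩
    · rw [hT, OpenPartialHomeomorph.coe_trans, Function.comp_apply,
        OpenPartialHomeomorph.coe_trans, Function.comp_apply, pLH_coe, h5,
        OpenPartialHomeomorph.coe_trans, Function.comp_apply]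
  refine StructureGroupoid.mem_of_eqOnSource _ hr ?_
  refine ⟨?_, ?_⟩
  · rw [OpenPartialHomeomorph.restr_source' _ _ T.open_source]
    exact (inter_eq_right.mpr fun p hp => (key p hp).1).symm
  · intro p hp
    rw [OpenPartialHomeomorph.restr_apply]
    exact (key p hp).2

theorem pLH : S_LH := by
  intro E _ _ _ X _ _ _ Y _ f hf
  let _ := pLH_cs E hf
  have hman : IsManifold 𝓘(ℂ, E) ω Y := by
    refine { compatible := ?_ }
    rintro _ _ ⟨y₁, rfl⟩ ⟨y₂, rfl⟩
    exact pLH_compat E hf y₁ y₂
  refine ⟨pLH_cs E hf, hman, ?_⟩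
  have hch : ∀ y : Y, chartAt E y = pLH_e hf y ≫ₕ chartAt E (f y) := fun y => rfl
  have hsm : ContMDiff 𝓘(ℂ, E) 𝓘(ℂ, E) ω f := by
    intro y
    rw [contMDiffAt_iff]
    refine ⟨hf.continuous.continuousAt, ?_⟩
    refine contDiffWithinAt_id.congr_of_eventuallyEq_of_mem ?_ (by simp)
    have hmem : (chartAt E y).target ∈ 𝓝 (extChartAt 𝓘(ℂ, E) y y) := by
      refine (chartAt E y).open_target.mem_nhds ?_
      simp
    refine Filter.Eventually.filter_mono nhdsWithin_le_nhds ?_
    filter_upwards [hmem] with p hp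
    rw [hch y, OpenPartialHomeomorph.trans_target, mem_inter_iff, mem_preimage] at hp
    simp only [Function.comp_apply, extChartAt, mfld_simps]
    rw [hch y, OpenPartialHomeomorph.coe_trans_symm, Function.comp_apply,
      pLH_right hf y _ hp.2]
    exact (chartAt E (f y)).right_inv hp.1
  intro y
  refine ⟨{ toPartialEquiv := (pLH_e hf y).toPartialEquiv
            open_source := (pLH_e hf y).open_source
            open_target := (pLH_e hf y).open_target
            contMDiffOn_toFun := ?_
            contMDiffOn_invFun := ?_ }, pLH_mem hf y, fun z _ => (pLH_coe hf y z).symm⟩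
  · refine hsm.contMDiffOn.congr fun z _ => ?_
    exact pLH_coe hf y z
  · intro q hq
    have hq' : q ∈ (pLH_e hf y).target := hq
    refine ContMDiffAt.contMDiffWithinAt ?_
    rw [contMDiffAt_iff]
    have hcont : ContinuousAt (pLH_e hf y).symm q := (pLH_e hf y).continuousAt_symm hq'
    refine ⟨hcont, ?_⟩
    refine contDiffWithinAt_id.congr_of_eventuallyEq_of_mem ?_ (by simp)
    refine Filter.Eventually.filter_mono nhdsWithin_le_nhds ?_
    set x := (pLH_e hf y).symm q with hx
    have hfx : f x = q := pLH_right hf y q hq'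
    have h1 : ∀ᶠ q' in 𝓝 q, (pLH_e hf y).symm q' ∈ (pLH_e hf x).source :=
      hcont.eventually ((pLH_e hf x).open_source.mem_nhds (pLH_mem hf x))
    have h2 : ∀ᶠ q' in 𝓝 q, q' ∈ (pLH_e hf y).target :=
      (pLH_e hf y).open_target.mem_nhds hq'
    have h3 : Filter.Tendsto (chartAt E q).symm (𝓝 (chartAt E q q)) (𝓝 q) := by
      have := (chartAt E q).continuousAt_symm (mem_chart_target E q)
      rw [ContinuousAt, (chartAt E q).left_inv (mem_chart_source E q)] at this
      exact this
    have h4 : ∀ᶠ r in 𝓝 (chartAt E q q), r ∈ (chartAt E q).target :=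
      (chartAt E q).open_target.mem_nhds (mem_chart_target E q)
    have h0 : (extChartAt 𝓘(ℂ, E) q q) = chartAt E q q := by
      simp
    rw [h0]
    filter_upwards [h3.eventually h1, h3.eventually h2, h4] with r hr1 hr2 hr3
    have hr4 : f ((pLH_e hf y).symm ((chartAt E q).symm r)) = (chartAt E q).symm r :=
      pLH_right hf y _ hr2
    have goal : chartAt E x ((pLH_e hf y).symm ((chartAt E q).symm r)) = r := by
      rw [hch x, OpenPartialHomeomorph.coe_trans, Function.comp_apply, pLH_coe, hr4, hfx]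
      exact (chartAt E q).right_inv hr3
    exact goal

end MP_d4c35b_ag.TG
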