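import Pool.Agent.Lib.MP_d4c35b_ag.TG.Spec

set_option autoImplicit false
set_option linter.unusedSectionVars false

open scoped Manifold ContDiff Topology
open Set

noncomputable section

namespace MP_d4c35b_ag.TG

namespace pTOPAux

/-- The `n`-th roots of unity in `ℂ`, as a topological subspace. -/
abbrev RU (n : ℕ) : Type := {ζ : ℂ // ζ ^ n = 1}

theorem finite_RU {n : ℕ} (hn : 1 ≤ n) : Finite (RU n) := by
  have h : Set.Finite {ζ : ℂ | ζ ^ n = 1} := by
    refine (Polynomial.nthRootsFinset n (1 : ℂ)).finite_toSet.subset ?_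
    intro ζ hζ
    have : ζ ∈ Polynomial.nthRootsFinset n (1 : ℂ) :=
      (Polynomial.mem_nthRootsFinset (by omega) 1).2 hζ
    exact_mod_cast this
  exact h.to_subtype

variable {X : Type} [TopologicalSpace X] {n : ℕ} (hn : 1 ≤ n)
  (U : X → Set X) (r : X → X → X → ℂ)
  (hU : ∀ i, IsOpen (U i)) (hmem : ∀ i, i ∈ U i)
  (hr : ∀ i j x, x ∈ U i → x ∈ U j → r i j x ^ n = 1)
  (hc : ∀ i j, ContinuousOn (r i j) (U i ∩ U j))
  (hcoc : ∀ i j l x, x ∈ U i → x ∈ U j → x ∈ U l → r i j x * r j l x = r i l x)

open Classical in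
/-- The coordinate changes. -/
def cc (i j x : X) (ζ : RU n) : RU n :=
  if h : x ∈ U i ∧ x ∈ U j then
    ⟨(ζ : ℂ) * r i j x, by rw [mul_pow, ζ.2, hr i j x h.1 h.2, one_mul]⟩
  else ζ

include hr in
theorem cc_val (i j x : X) (ζ : RU n) (hi : x ∈ U i) (hj : x ∈ U j) :
    ((cc U r hr i j x ζ : RU n) : ℂ) = (ζ : ℂ) * r i j x := by
  rw [cc, dif_pos ⟨hi, hj⟩]

include hr hcoc hn in
theorem r_self (i x : X) (hi : x ∈ U i) : r i i x = 1 := by
  have h0 : r i i x ≠ 0 := by
    intro h
    have := hr i i x hi hi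
    rw [h, zero_pow (by omega)] at this
    exact zero_ne_one this
  have h1 := hcoc i i i x hi hi hi
  exact mul_left_cancel₀ h0 (by rw [h1, mul_one])

/-- The fibre bundle core. -/
def core : FiberBundleCore X X (RU n) where
  baseSet := U
  isOpen_baseSet := hU
  indexAt := id
  mem_baseSet_at := hmem
  coordChange := cc U r hr
  coordChange_self := by
    intro i x hx v
    apply Subtype.ext
    rw [cc_val U r hr i i x v hx hx, r_self hn U r hr hcoc i x hx, mul_one]
  continuousOn_coordChange := by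
    intro i j
    rw [continuousOn_iff_continuous_domRestrict]
    refine Continuous.subtype_mk (p := fun ζ : ℂ => ζ ^ n = 1)
      (f := fun p : ↥((U i ∩ U j) ×ˢ (univ : Set (RU n))) =>
        ((p.1.2 : RU n) : ℂ) * r i j p.1.1) ?_ ?_ |>.congr ?_
    · refine Continuous.mul (by fun_prop) ?_
      exact (hc i j).comp_continuous (by fun_prop) (fun p => p.2.1)
    · intro p
      rw [mul_pow, p.1.2.2, hr i j p.1.1 p.2.1.1 p.2.1.2, one_mul]
    · intro p
      apply Subtype.ext
      exact (cc_val U r hr i j p.1.1 p.1.2 p.2.1.1 p.2.1.2).symm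
  coordChange_comp := by
    intro i j k x hx v
    apply Subtype.ext
    rw [cc_val U r hr j k x _ hx.1.2 hx.2, cc_val U r hr i j x v hx.1.1 hx.1.2,
      cc_val U r hr i k x v hx.1.1 hx.2, mul_assoc, hcoc i j k x hx.1.1 hx.1.2 hx.2]

end pTOPAux

open pTOPAux

theorem pTOP : S_TOP := by
  intro X _ _ _ _ _ n hn U r hU hmem hr hc hcoc
  have : Finite (RU n) := finite_RU hn
  let Z : FiberBundleCore X X (RU n) := core hn U r hU hmem hr hc hcoc
  have hcov : IsCoveringMap (Bundle.TotalSpace.proj : Z.TotalSpace → X) :=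
    FiberBundle.isCoveringMap
  -- T2
  have hT2 : T2Space Z.TotalSpace := by
    refine ⟨fun a b hab => ?_⟩
    by_cases hp : a.proj = b.proj
    · exact hcov.isSeparatedMap a b hp hab
    · obtain ⟨u, v, hu, hv, hau, hbv, huv⟩ := t2_separation hp
      exact ⟨_, _, hu.preimage hcov.continuous, hv.preimage hcov.continuous, hau, hbv,
        huv.preimage _⟩
  -- compact
  have hK : ∀ (i : X) (K : Set X), IsCompact K → K ⊆ U i →
      IsCompact ((Bundle.TotalSpace.proj : Z.TotalSpace → X) ⁻¹' K) := by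
    intro i K hKc hKU
    have h1 : IsCompact (K ×ˢ (univ : Set (RU n))) := hKc.prod isCompact_univ
    have h2 : ContinuousOn (Z.localTriv i).toOpenPartialHomeomorph.symm
        (K ×ˢ (univ : Set (RU n))) := by
      refine (Z.localTriv i).toOpenPartialHomeomorph.continuousOn_symm.mono ?_
      intro p hp
      rw [(Z.localTriv i).target_eq]
      exact ⟨hKU hp.1, trivial⟩
    have h3 := h1.image_of_continuousOn h2
    refine (h3.of_isClosed_subset (hKc.isClosed.preimage hcov.continuous) ?_)
    intro t ht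
    have hts : t ∈ (Z.localTriv i).source := by
      rw [(Z.localTriv i).source_eq]
      exact hKU ht
    refine ⟨(Z.localTriv i) t, ⟨?_, trivial⟩, (Z.localTriv i).left_inv hts⟩
    exact ht
  have hcomp : CompactSpace Z.TotalSpace := by
    have h1 : ∀ x : X, ∃ K : Set X, IsCompact K ∧ x ∈ interior K ∧ K ⊆ U x := fun x =>
      exists_compact_subset (hU x) (hmem x)
    choose K hKc hxK hKU using h1
    obtain ⟨s, hs⟩ := isCompact_univ.elim_finite_subcover (fun x => interior (K x))
      (fun x => isOpen_interior) (fun x _ => mem_iUnion.2 ⟨x, hxK x⟩)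
    refine ⟨?_⟩
    have h2 : IsCompact (⋃ x ∈ s, (Bundle.TotalSpace.proj : Z.TotalSpace → X) ⁻¹' K x) :=
      s.isCompact_biUnion (fun x _ => hK x (K x) (hKc x) (hKU x))
    refine h2.of_isClosed_subset isClosed_univ ?_
    intro t _
    have := hs (mem_univ t.proj)
    simp only [mem_iUnion] at this ⊢
    obtain ⟨x, hx, hxt⟩ := this
    exact ⟨x, hx, (interior_subset : interior (K x) ⊆ K x) hxt⟩
  -- locally connected
  have hlc : LocallyConnectedSpace Z.TotalSpace := by
    rw [locallyConnectedSpace_iff_connected_subsets]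
    intro t W hW
    obtain ⟨e, het, hef⟩ := hcov.isLocalHomeomorph t
    have h1 : e '' (e.source ∩ interior W) ∈ 𝓝 (e t) := by
      refine IsOpen.mem_nhds ?_ ⟨t, ⟨het, mem_interior_iff_mem_nhds.2 hW⟩, rfl⟩
      exact e.isOpen_image_of_subset_source (e.open_source.inter isOpen_interior)
        inter_subset_left
    obtain ⟨V, hV, hVc, hVs⟩ := (locallyConnectedSpace_iff_connected_subsets.1
      (inferInstance : LocallyConnectedSpace X)) (e t) _ h1
    have hVt : V ⊆ e.target := by
      intro v hv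
      obtain ⟨y, hy, rfl⟩ := hVs hv
      exact e.map_source hy.1
    refine ⟨e.symm '' V, ?_, hVc.image _ (e.continuousOn_symm.mono hVt), ?_⟩
    · have h2 := e.symm.image_mem_nhds (x := e t) (e.map_source het) hV
      rwa [e.left_inv het] at h2
    · rintro _ ⟨v, hv, rfl⟩
      obtain ⟨y, hy, rfl⟩ := hVs hv
      rw [e.left_inv hy.1]
      exact interior_subset hy.2
  obtain ⟨x0⟩ := (inferInstance : Nonempty X)
  let t0 : Z.TotalSpace := ⟨x0, (⟨1, one_pow n⟩ : RU n)⟩
  let Y : Set Z.TotalSpace := connectedComponent t0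
  have hYo : IsOpen Y := isOpen_connectedComponent
  have hYc : IsClosed Y := isClosed_connectedComponent
  refine ⟨Y, inferInstance, fun y => y.1.proj,
    fun i y => (((Z.localTriv i) y.1).2 : ℂ), inferInstance, ?_, ?_, ?_, ?_, ?_, ?_⟩
  · exact isCompact_iff_compactSpace.1 hYc.isCompact
  · exact Subtype.connectedSpace isConnected_connectedComponent
  · exact hcov.isLocalHomeomorph.comp hYo.isOpenEmbedding_subtypeVal.isLocalHomeomorph
  · intro i y _
    exact (((Z.localTriv i) y.1).2).2
  · intro i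
    have h1 : ContinuousOn (Z.localTriv i) (Z.localTriv i).source :=
      (Z.localTriv i).continuousOn_toFun
    have h2 : ContinuousOn (fun y : Y => (Z.localTriv i) y.1)
        ((fun y : Y => y.1.proj) ⁻¹' U i) := by
      refine h1.comp continuous_subtype_val.continuousOn ?_
      intro y hy
      rw [(Z.localTriv i).source_eq]
      exact hy
    exact continuous_subtype_val.comp_continuousOn (continuous_snd.comp_continuousOn h2)
  · intro i j y hi hj
    have h1 : ∀ k, y.1.proj ∈ U k → ((((Z.localTriv k) y.1).2 : RU n) : ℂ) =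
        (Subtype.val (show RU n from y.1.2) : ℂ) * r y.1.proj k y.1.proj := fun k hk =>
      cc_val U r hr y.1.proj k y.1.proj y.1.2 (hmem _) hk
    show ((((Z.localTriv i) y.1).2 : RU n) : ℂ) * r i j y.1.proj =
      ((((Z.localTriv j) y.1).2 : RU n) : ℂ)
    rw [h1 i hi, h1 j hj, mul_assoc, hcoc y.1.proj i j y.1.proj (hmem _) hi hj]

end MP_d4c35b_ag.TG
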