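import Pool.Agent.Lib.MP_d4c35b_ag.TG.Main
import Pool.Agent.Lib.MP_d4c35b_ag.TG.LH
import Pool.Agent.Lib.MP_d4c35b_ag.TG.Top

namespace MP_d4c35b_ag.TG

theorem full : S_main := main pLH pTOP

end MP_d4c35b_ag.TG
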