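import Pool.Agent.Lib.MP_d4c35b_ag.TG.Alb
import Pool.Agent.Lib.MP_d4c35b_ag.TG.Full

set_option linter.unusedSectionVars false

open scoped Manifold ContDiff Topology TensorProduct
open Function Set

namespace MP_d4c35b_ag.TG

open MP_d4c35b_ag.Read hiding Etale

/-- The tensor field `η_1 ⊗ … ⊗ η_p`, with values `∏ η_i(v_i)`. -/
noncomputable def prodForm {E : Type} [NormedAddCommGroup E] [NormedSpace ℂ E]
    {X : Type} [TopologicalSpace X] [ChartedSpace E X] {p : ℕ} (η : Fin p → Form E X) :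
    Cov E X p :=
  fun x => (MultilinearMap.mkPiAlgebra ℂ (Fin p) ℂ).compLinearMap (fun i => η i x)

section

variable {F : Type} [NormedAddCommGroup F] [NormedSpace ℂ F] [FiniteDimensional ℂ F]
variable {A : Type} [TopologicalSpace A] [ChartedSpace F A] [IsManifold 𝓘(ℂ, F) ω A]

theorem holCov_zero {p : ℕ} : HolCov (0 : Cov F A p) := by
  intro U hU V hV x hx
  exact mdifferentiableWithinAt_const

theorem holCov_add {p : ℕ} {s t : Cov F A p} (hs : HolCov s) (ht : HolCov t) :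
    HolCov (s + t) := fun U hU V hV => MDifferentiableOn.add (hs U hU V hV) (ht U hU V hV)

theorem holCov_smul {p : ℕ} {s : Cov F A p} (c : ℂ) (hs : HolCov s) :
    HolCov (c • s) := fun U hU V hV => MDifferentiableOn.const_smul c (hs U hU V hV)

theorem holCov_prod {p : ℕ} {η : Fin p → Form F A} (hη : ∀ i, HolForm univ (η i)) :
    HolCov (prodForm η) := by
  intro U hU V hV x hx
  refine MDifferentiableAt.mdifferentiableWithinAt ?_
  have h1 : (fun x => prodForm η x (fun i => V i x)) = fun x => ∏ i, η i x (V i x) := by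
    funext x
    simp [prodForm]
  rw [h1]
  exact da_prod fun i => ((hη i) U hU (subset_univ _) (V i) (hV i) x hx).mdifferentiableAt
    (hU.mem_nhds hx)

end

section

variable {E : Type} [NormedAddCommGroup E] [NormedSpace ℂ E] [FiniteDimensional ℂ E]
variable {Z : Type} [TopologicalSpace Z] [ChartedSpace E Z] [IsManifold 𝓘(ℂ, E) ω Z]
variable {Y : Type} [TopologicalSpace Y] [ChartedSpace E Y] [IsManifold 𝓘(ℂ, E) ω Y]
variable {F : Type} [NormedAddCommGroup F] [NormedSpace ℂ F] [FiniteDimensional ℂ F]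
variable {A : Type} [TopologicalSpace A] [ChartedSpace F A] [IsManifold 𝓘(ℂ, F) ω A]

theorem pullCov_prod {p : ℕ} {α : Y → A} {g : Z → Y} (hα : ContMDiff 𝓘(ℂ, E) 𝓘(ℂ, F) ω α)
    (hg : IsLocalDiffeomorph 𝓘(ℂ, E) 𝓘(ℂ, E) ω g) (ϖ : Fin p → Form F A) :
    pullCov (E := E) (α ∘ g) (prodForm ϖ) =
      prodForm (fun i => pullForm (E := E) g (pullForm (E := E) α (ϖ i))) := by
  funext z
  ext v
  have h := mfderiv_comp z ((hα (g z)).mdifferentiableAt (by simp))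
    ((hg z).mdifferentiableAt (by simp))
  have h1 : ∀ u : TangentSpace 𝓘(ℂ, E) z,
      mfderiv 𝓘(ℂ, E) 𝓘(ℂ, F) (α ∘ g) z u =
        mfderiv 𝓘(ℂ, E) 𝓘(ℂ, F) α (g z) (mfderiv 𝓘(ℂ, E) 𝓘(ℂ, E) g z u) := by
    intro u
    rw [h]
    rfl
  have h2 : pullCov (E := E) (α ∘ g) (prodForm ϖ) z v =
      ∏ i, ϖ i (α (g z)) (mfderiv 𝓘(ℂ, E) 𝓘(ℂ, F) (α ∘ g) z (v i)) := by
    simp [pullCov, prodForm]
  have h3 : prodForm (fun i => pullForm (E := E) g (pullForm (E := E) α (ϖ i))) z v =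
      ∏ i, ϖ i (α (g z)) (mfderiv 𝓘(ℂ, E) 𝓘(ℂ, F) α (g z)
        (mfderiv 𝓘(ℂ, E) 𝓘(ℂ, E) g z (v i))) := by
    simp [pullForm, prodForm]
  rw [h2, h3]
  refine Finset.prod_congr rfl fun i _ => ?_
  rw [h1]

theorem submersion_of {α : Y → A} (hα : ContMDiff 𝓘(ℂ, E) 𝓘(ℂ, F) ω α)
    (h1 : ∀ η : Form E Y, HolForm univ η → ∀ y, η y = 0 → η = 0)
    (hgen : ∀ (a : A) (ξ : TangentSpace 𝓘(ℂ, F) a →ₗ[ℂ] ℂ), ∃ ϖ : Form F A,
      HolForm univ ϖ ∧ ϖ a = ξ)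
    (hinj : ∀ ϖ : Form F A, HolForm univ ϖ → pullForm (E := E) α ϖ = 0 → ϖ = 0) (y : Y) :
    Surjective (mfderiv 𝓘(ℂ, E) 𝓘(ℂ, F) α y) := by
  by_contra hns
  set L : E →ₗ[ℂ] F := (mfderiv 𝓘(ℂ, E) 𝓘(ℂ, F) α y : E →L[ℂ] F).toLinearMap with hL
  have hlt : LinearMap.range L < ⊤ := by
    rw [lt_top_iff_ne_top]
    intro h
    exact hns (LinearMap.range_eq_top.mp h)
  obtain ⟨ξ, hξ0, hξ⟩ := Submodule.exists_le_ker_of_lt_top _ hlt
  obtain ⟨ϖ, hϖ, hϖa⟩ := hgen (α y) ξ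
  have h2 : pullForm (E := E) α ϖ y = 0 := by
    ext u
    have h3 : ϖ (α y) (L u) = ξ (L u) := congrArg (fun l : F →ₗ[ℂ] ℂ => l (L u)) hϖa
    have h4 : ξ (L u) = 0 := hξ (LinearMap.mem_range_self L u)
    exact h3.trans h4
  have h3 := h1 _ (holForm_pull hα hϖ) y h2
  have h4 := hinj ϖ hϖ h3
  apply hξ0
  rw [← hϖa, h4]
  rfl

end

end MP_d4c35b_ag.TG
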