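import Pool.Agent.Lib.MP_d4c35b_ag.TG.G1

set_option linter.unusedSectionVars false

open scoped Manifold ContDiff Topology
open Function Set

namespace MP_d4c35b_ag.TG

variable {E : Type} [NormedAddCommGroup E] [NormedSpace ℂ E] [FiniteDimensional ℂ E]
variable {X : Type} [TopologicalSpace X] [ChartedSpace E X] [IsManifold 𝓘(ℂ, E) ω X]

/-- the space of holomorphic covariant tensor fields -/
def FC (E X ι : Type) [NormedAddCommGroup E] [NormedSpace ℂ E] [FiniteDimensional ℂ E]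
    [TopologicalSpace X] [ChartedSpace E X] [IsManifold 𝓘(ℂ, E) ω X] :
    Submodule ℂ (X → MM E ι) where
  carrier := {s | HC s}
  add_mem' := fun h1 h2 => HC_add h1 h2
  zero_mem' := HC_zero
  smul_mem' := fun c _ h => HC_smul c h

/-- the tensor fields which are polynomials in holomorphic 1-forms -/
def PolySp (E X : Type) [NormedAddCommGroup E] [NormedSpace ℂ E] [FiniteDimensional ℂ E]
    [TopologicalSpace X] [ChartedSpace E X] [IsManifold 𝓘(ℂ, E) ω X] (p : ℕ) :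
    Submodule ℂ (X → MM E (Fin p)) :=
  Submodule.span ℂ {t | ∃ η : Fin p → X → E →ₗ[ℂ] ℂ, (∀ i, H1 (η i)) ∧ t = tp η}

theorem PolySp_le (p : ℕ) : PolySp E X p ≤ FC E X (Fin p) := by
  refine Submodule.span_le.mpr ?_
  rintro t ⟨η, hη, rfl⟩
  exact HC_tp hη

variable [CompactSpace X] [ConnectedSpace X]

theorem g1 {k : ℕ} (hk : 1 ≤ k) {x₀ : X} (hG : GG (E := E) k x₀)
    {η : X → E →ₗ[ℂ] ℂ} (hη : H1 η) (h0 : η ≠ 0) (p : ℕ) {s : X → MM E (Fin p)} (hs : HC s) :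
    s ∈ PolySp E X p := by
  classical
  set A : Submodule ℂ (E →ₗ[ℂ] ℂ) :=
    Submodule.map (LinearMap.proj x₀ : (X → E →ₗ[ℂ] ℂ) →ₗ[ℂ] (E →ₗ[ℂ] ℂ)) (F1 E X) with hA
  have h1 : s x₀ ∈ Submodule.span ℂ {t : MM E (Fin p) | ∃ f : Fin p → E →ₗ[ℂ] ℂ,
      (∀ i, f i ∈ A) ∧ t = tpm f} := by
    refine la1 A (s x₀) ?_
    intro j v
    obtain ⟨β, hβ, hβ0⟩ := slot hk hG hη h0 (U := {i : Fin p // i = j})
      (ι' := {i : Fin p // ¬ i = j})
      (s := reix (Equiv.sumCompl (fun i : Fin p => i = j)).symm s) (HC_reix _ hs)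
      (fun i => v i.1)
    refine ⟨β x₀, ⟨β, hβ, rfl⟩, fun u => ?_⟩
    rw [hβ0, reix_apply]
    congr 1
    funext i
    by_cases hi : i = j
    · subst hi
      simp
    · rw [Equiv.sumCompl_symm_apply_of_neg (p := fun i : Fin p => i = j) hi]
      simp [Function.update_of_ne hi]
  have h2 : Submodule.span ℂ {t : MM E (Fin p) | ∃ f : Fin p → E →ₗ[ℂ] ℂ,
      (∀ i, f i ∈ A) ∧ t = tpm f} ≤
      Submodule.map (LinearMap.proj x₀ : (X → MM E (Fin p)) →ₗ[ℂ] MM E (Fin p))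
        (PolySp E X p) := by
    refine Submodule.span_le.mpr ?_
    rintro t ⟨f, hf, rfl⟩
    choose β hβ hβf using hf
    refine ⟨tp β, Submodule.subset_span ⟨β, hβ, rfl⟩, ?_⟩
    ext v
    change tp β x₀ v = tpm f v
    rw [tp_apply, tpm_apply]
    refine Finset.prod_congr rfl fun i _ => ?_
    rw [← hβf i]; rfl
  obtain ⟨t, ht, hts⟩ := h2 h1
  have h3 : s - t = 0 := by
    refine injAll hk hG hη h0 (HC_sub hs (PolySp_le p ht)) (y := x₀) ?_
    have h4 : t x₀ = s x₀ := hts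
    rw [Pi.sub_apply, h4, sub_self]
  rw [sub_eq_zero] at h3
  rw [h3]
  exact ht

end MP_d4c35b_ag.TG
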