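import Pool.Agent.Lib.MP_d4c35b_ag.TG.Basic

open scoped Manifold ContDiff Topology
open Function Set

namespace MP_d4c35b_ag.TG

variable {E : Type} [NormedAddCommGroup E] [NormedSpace ℂ E]
variable {X : Type} [TopologicalSpace X] [ChartedSpace E X]
variable {Y : Type} [TopologicalSpace Y] [ChartedSpace E Y]

/-- complex differentiable at a point -/
abbrev DA (f : X → ℂ) (x : X) : Prop := MDifferentiableAt 𝓘(ℂ, E) 𝓘(ℂ) f x

theorem da_mul {f g : X → ℂ} {x : X} (hf : DA (E := E) f x) (hg : DA (E := E) g x) :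
    DA (E := E) (fun z => f z * g z) x := MDifferentiableAt.mul hf hg

theorem da_add {f g : X → ℂ} {x : X} (hf : DA (E := E) f x) (hg : DA (E := E) g x) :
    DA (E := E) (fun z => f z + g z) x := MDifferentiableAt.add hf hg

theorem da_sub {f g : X → ℂ} {x : X} (hf : DA (E := E) f x) (hg : DA (E := E) g x) :
    DA (E := E) (fun z => f z - g z) x := MDifferentiableAt.sub hf hg

theorem da_const (c : ℂ) (x : X) : DA (E := E) (fun _ : X => c) x := mdifferentiableAt_const

theorem da_sum {α : Type} [Fintype α] {f : α → X → ℂ} {x : X} (hf : ∀ a, DA (E := E) (f a) x) :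
    DA (E := E) (fun z => ∑ a, f a z) x := by
  have h := MDifferentiableAt.sum (I := 𝓘(ℂ, E)) (t := Finset.univ) (f := f) (z := x)
    (fun i _ => hf i)
  convert h using 1
  funext z; simp

theorem da_prod {α : Type} [Fintype α] {f : α → X → ℂ} {x : X} (hf : ∀ a, DA (E := E) (f a) x) :
    DA (E := E) (fun z => ∏ a, f a z) x := by
  have h := MDifferentiableAt.prod (I := 𝓘(ℂ, E)) (t := Finset.univ) (f := f) (z := x)
    (fun i _ => hf i)
  convert h using 1
  funext z; simp

theorem da_coord [FiniteDimensional ℂ E] {c : X → E} {x : X}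
    (hc : MDifferentiableAt 𝓘(ℂ, E) 𝓘(ℂ, E) c x) (l : E →ₗ[ℂ] ℂ) :
    DA (E := E) (fun z => l (c z)) x := by
  have h : MDifferentiableAt 𝓘(ℂ, E) 𝓘(ℂ) (fun v : E => l v) (c x) :=
    (LinearMap.toContinuousLinearMap l).differentiableAt.mdifferentiableAt
  exact h.comp x hc

theorem mm_da [FiniteDimensional ℂ E] {κ : Type} [Fintype κ] (m : MM E κ) {c : X → κ → E} {x : X}
    (hc : ∀ i, MDifferentiableAt 𝓘(ℂ, E) 𝓘(ℂ, E) (fun z => c z i) x) :
    DA (E := E) (fun z => m (c z)) x := by
  classical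
  have h : (fun z => m (c z)) = fun z => ∑ I : κ → Fin (Module.finrank ℂ E),
      m (fun i => (Module.finBasis ℂ E) (I i)) *
        ∏ i, (Module.finBasis ℂ E).coord (I i) (c z i) := by
    funext z
    exact mm_exp_apply (Module.finBasis ℂ E) m LinearMap.id LinearMap.id (c z) (fun i => rfl)
  rw [h]
  exact da_sum fun I => da_mul (da_const _ _) (da_prod fun i => da_coord (hc i) _)

section

variable [IsManifold 𝓘(ℂ, E) ω X] [FiniteDimensional ℂ E]

/-- holomorphic at a point, in the chart of this point -/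
def HCat {ι : Type} (s : X → MM E ι) (y : X) : Prop :=
  ∀ v : ι → E, DA (E := E) (fun x => s x (fun i => toT y x (v i))) y

def HKat {κ : Type} (τ : X → MM E κ →ₗ[ℂ] ℂ) (y : X) : Prop :=
  ∀ m : MM E κ, DA (E := E)
    (fun x => τ x (m.compLinearMap (fun _ => (ofT y x : E →L[ℂ] E).toLinearMap))) y

def H1at (η : X → E →ₗ[ℂ] ℂ) (y : X) : Prop :=
  ∀ v : E, DA (E := E) (fun x => η x (toT y x v)) y

theorem da_HC {ι : Type} [Fintype ι] {s : X → MM E ι} {f : Y → X} {y : Y}
    (hs : HCat s (f y)) (hf : MDifferentiableAt 𝓘(ℂ, E) 𝓘(ℂ, E) f y) {c : Y → ι → E}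
    (hc : ∀ i, MDifferentiableAt 𝓘(ℂ, E) 𝓘(ℂ, E) (fun z => c z i) y) :
    DA (E := E) (fun z => s (f z) (fun i => toT (f y) (f z) (c z i))) y := by
  classical
  have h : (fun z => s (f z) (fun i => toT (f y) (f z) (c z i))) =
      fun z => ∑ I : ι → Fin (Module.finrank ℂ E),
      s (f z) (fun i => toT (f y) (f z) ((Module.finBasis ℂ E) (I i))) *
        ∏ i, (Module.finBasis ℂ E).coord (I i) (c z i) := by
    funext z
    exact mm_exp_apply (Module.finBasis ℂ E)
      ((s (f z)).compLinearMap (fun _ => (toT (f y) (f z) : E →L[ℂ] E).toLinearMap))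
      LinearMap.id LinearMap.id (c z) (fun i => rfl)
  rw [h]
  refine da_sum fun I => da_mul ?_ (da_prod fun i => da_coord (hc i) _)
  exact (hs (fun i => (Module.finBasis ℂ E) (I i))).comp y hf

theorem da_H1 {η : X → E →ₗ[ℂ] ℂ} {f : Y → X} {y : Y}
    (hs : H1at η (f y)) (hf : MDifferentiableAt 𝓘(ℂ, E) 𝓘(ℂ, E) f y) {c : Y → E}
    (hc : MDifferentiableAt 𝓘(ℂ, E) 𝓘(ℂ, E) c y) :
    DA (E := E) (fun z => η (f z) (toT (f y) (f z) (c z))) y := by
  have h : (fun z => η (f z) (toT (f y) (f z) (c z))) =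
      fun z => ∑ j : Fin (Module.finrank ℂ E),
      (Module.finBasis ℂ E).coord j (c z) *
        η (f z) (toT (f y) (f z) ((Module.finBasis ℂ E) j)) := by
    funext z
    conv_lhs => rw [← (Module.finBasis ℂ E).sum_repr (c z)]
    rw [map_sum, map_sum]
    refine Finset.sum_congr rfl fun j _ => ?_
    rw [map_smul, map_smul]; rfl
  rw [h]
  refine da_sum fun j => da_mul (da_coord hc _) ?_
  exact (hs ((Module.finBasis ℂ E) j)).comp y hf

theorem da_HK {κ : Type} [Fintype κ] {τ : X → MM E κ →ₗ[ℂ] ℂ} {f : Y → X} {y : Y}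
    (hs : HKat τ (f y)) (hf : MDifferentiableAt 𝓘(ℂ, E) 𝓘(ℂ, E) f y) {m : Y → MM E κ}
    (hm : ∀ v : κ → E, DA (E := E) (fun z => m z v) y) :
    DA (E := E) (fun z => τ (f z)
      ((m z).compLinearMap (fun _ => (ofT (f y) (f z) : E →L[ℂ] E).toLinearMap))) y := by
  classical
  have h : (fun z => τ (f z)
      ((m z).compLinearMap (fun _ => (ofT (f y) (f z) : E →L[ℂ] E).toLinearMap))) =
      fun z => ∑ I : κ → Fin (Module.finrank ℂ E),
      m z (fun i => (Module.finBasis ℂ E) (I i)) *
        τ (f z) ((EI (Module.finBasis ℂ E) I).compLinearMap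
          (fun _ => (ofT (f y) (f z) : E →L[ℂ] E).toLinearMap)) := by
    funext z
    have h1 := mm_exp (Module.finBasis ℂ E) (m z) LinearMap.id LinearMap.id (fun v => rfl)
    have h2 : (m z).compLinearMap (fun _ => (ofT (f y) (f z) : E →L[ℂ] E).toLinearMap) =
      ∑ I : κ → Fin (Module.finrank ℂ E), m z (fun i => (Module.finBasis ℂ E) (I i)) •
        (EI (Module.finBasis ℂ E) I).compLinearMap
          (fun _ => (ofT (f y) (f z) : E →L[ℂ] E).toLinearMap) := by
      conv_lhs => rw [h1]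
      ext w
      simp [sum_apply]
    rw [h2, map_sum]
    refine Finset.sum_congr rfl fun I _ => ?_
    rw [map_smul, smul_eq_mul]
  rw [h]
  refine da_sum fun I => da_mul (hm _) ?_
  exact (hs (EI (Module.finBasis ℂ E) I)).comp y hf

omit [IsManifold 𝓘(ℂ, E) ω X] [FiniteDimensional ℂ E] in
theorem nhds_src (x₀ x : X) (hx : x ∈ (chartAt E x₀).source) :
    ∀ᶠ z in 𝓝 x, z ∈ (chartAt E x₀).source ∧ z ∈ (chartAt E x).source :=
  Filter.inter_mem ((chartAt E x₀).open_source.mem_nhds hx)
    ((chartAt E x).open_source.mem_nhds (mem_chart_source E x))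

omit [FiniteDimensional ℂ E] in
theorem da_tcc {x₀ x₁ x : X} (h0 : x ∈ (chartAt E x₀).source) (h1 : x ∈ (chartAt E x₁).source)
    (v : E) : MDifferentiableAt 𝓘(ℂ, E) 𝓘(ℂ, E)
      (fun z => (tangentCoordChange 𝓘(ℂ, E) x₀ x₁ z : E →L[ℂ] E) v) x :=
  (mdiff_tcc h0 h1).clm_apply mdifferentiableAt_const

theorem HC_iff {ι : Type} [Fintype ι] {s : X → MM E ι} : HC s ↔ ∀ y, HCat s y := by
  constructor
  · intro h y v
    exact (h y v).mdifferentiableAt ((chartAt E y).open_source.mem_nhds (mem_chart_source E y))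
  · intro h x₀ v x hx
    refine MDifferentiableAt.mdifferentiableWithinAt ?_
    have h1 := da_HC (f := fun z : X => z) (h x) mdifferentiableAt_id
      (c := fun z i => tangentCoordChange 𝓘(ℂ, E) x₀ x z (v i))
      (fun i => da_tcc hx (mem_chart_source E x) (v i))
    refine h1.congr_of_eventuallyEq ?_
    filter_upwards [nhds_src x₀ x hx] with z hz
    congr 1; funext i
    exact toT_change hz.1 hz.2 _

theorem H1_iff {η : X → E →ₗ[ℂ] ℂ} : H1 η ↔ ∀ y, H1at η y := by
  constructor
  · intro h y v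
    exact (h y v).mdifferentiableAt ((chartAt E y).open_source.mem_nhds (mem_chart_source E y))
  · intro h x₀ v x hx
    refine MDifferentiableAt.mdifferentiableWithinAt ?_
    have h1 := da_H1 (f := fun z : X => z) (h x) mdifferentiableAt_id
      (c := fun z => tangentCoordChange 𝓘(ℂ, E) x₀ x z v)
      (da_tcc hx (mem_chart_source E x) v)
    refine h1.congr_of_eventuallyEq ?_
    filter_upwards [nhds_src x₀ x hx] with z hz
    congr 1
    exact toT_change hz.1 hz.2 _

theorem HK_iff {κ : Type} [Fintype κ] {τ : X → MM E κ →ₗ[ℂ] ℂ} : HK τ ↔ ∀ y, HKat τ y := by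
  constructor
  · intro h y m
    exact (h y m).mdifferentiableAt ((chartAt E y).open_source.mem_nhds (mem_chart_source E y))
  · intro h x₀ m x hx
    refine MDifferentiableAt.mdifferentiableWithinAt ?_
    have h1 := da_HK (f := fun z : X => z) (h x) mdifferentiableAt_id
      (m := fun z => m.compLinearMap
        (fun _ => (tangentCoordChange 𝓘(ℂ, E) x x₀ z : E →L[ℂ] E).toLinearMap))
      (fun v => mm_da m (fun i => da_tcc (mem_chart_source E x) hx (v i)))
    refine h1.congr_of_eventuallyEq ?_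
    filter_upwards [nhds_src x₀ x hx] with z hz
    congr 1
    ext w
    simp only [MultilinearMap.compLinearMap_apply]
    congr 1; funext i
    exact ofT_change hz.1 hz.2 _

end

end MP_d4c35b_ag.TG
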