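import Pool.Agent.Lib.MP_d4c35b_ag.TG.Ops

set_option linter.unusedSectionVars false

open scoped Manifold ContDiff Topology
open Function Set

namespace MP_d4c35b_ag.TG

variable {E : Type} [NormedAddCommGroup E] [NormedSpace ℂ E] [FiniteDimensional ℂ E]
variable {X : Type} [TopologicalSpace X] [ChartedSpace E X]

/-- identity theorem along complex lines in a ball -/
theorem ball_ident {g : E → ℂ} {c : E} {r : ℝ} (hg : DifferentiableOn ℂ g (Metric.ball c r))
    {a : E} (ha : a ∈ Metric.ball c r) (h0 : ∀ᶠ z in 𝓝 a, g z = 0) :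
    ∀ u ∈ Metric.ball c r, g u = 0 := by
  intro u hu
  set L : ℂ → E := fun t => a + t • (u - a) with hL
  have hLd : Differentiable ℂ L := by
    intro t
    exact (differentiableAt_const a).add (differentiableAt_id.smul_const (u - a))
  set D : Set ℂ := L ⁻¹' (Metric.ball c r) with hD
  have hDo : IsOpen D := Metric.isOpen_ball.preimage hLd.continuous
  have hDc : Convex ℝ D := by
    intro s hs t ht α β hα hβ hαβ
    have h1 : L (α • s + β • t) = α • L s + β • L t := by
      simp only [hL]
      have h3 : (α : ℂ) + (β : ℂ) = 1 := by exact_mod_cast hαβ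
      have h4 : α • (a + s • (u - a)) + β • (a + t • (u - a)) =
          ((α : ℂ) + (β : ℂ)) • a + ((α : ℂ) * s + (β : ℂ) * t) • (u - a) := by
        rw [← Complex.coe_smul α, ← Complex.coe_smul β]
        module
      rw [h4, h3, one_smul]
      simp
    change L (α • s + β • t) ∈ Metric.ball c r
    rw [h1]
    exact (convex_ball c r) hs ht hα hβ hαβ
  have hd : DifferentiableOn ℂ (fun t => g (L t)) D := by
    intro t ht
    exact (hg (L t) ht).comp t hLd.differentiableAt.differentiableWithinAt (fun _ h => h)
  have han : AnalyticOnNhd ℂ (fun t => g (L t)) D := hd.analyticOnNhd hDo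
  have h0' : (0 : ℂ) ∈ D := by
    change L 0 ∈ Metric.ball c r
    simpa [hL] using ha
  have h1' : (1 : ℂ) ∈ D := by
    change L 1 ∈ Metric.ball c r
    simpa [hL] using hu
  have hev : (fun t => g (L t)) =ᶠ[𝓝 0] 0 := by
    have h2 : Filter.Tendsto L (𝓝 0) (𝓝 a) := by
      have := hLd.continuous.tendsto 0
      simpa [hL] using this
    exact h2.eventually h0
  have h3 := han.eqOn_zero_of_preconnected_of_eventuallyEq_zero hDc.isPreconnected h0' hev h1'
  simpa [hL] using h3

variable [IsManifold 𝓘(ℂ, E) ω X]

theorem HC_ident [ConnectedSpace X] {ι : Type} [Fintype ι] {s : X → MM E ι} (hs : HC s)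
    {x₁ : X} (h0 : ∀ᶠ x in 𝓝 x₁, s x = 0) : s = 0 := by
  set Z : Set X := {x | ∀ᶠ z in 𝓝 x, s z = 0} with hZ
  have hZo : IsOpen Z := isOpen_setOfPred_eventually_nhds
  have hZc : IsClosed Z := by
    refine isClosed_of_closure_subset ?_
    intro x hx
    set e := chartAt E x with he
    have htgt : e.target ∈ 𝓝 (e x) := e.open_target.mem_nhds (e.map_source (mem_chart_source E x))
    obtain ⟨r, hr, hball⟩ := Metric.mem_nhds_iff.mp htgt
    set W : Set X := e.source ∩ e ⁻¹' (Metric.ball (e x) r) with hW
    have hWo : IsOpen W := e.isOpen_inter_preimage Metric.isOpen_ball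
    have hxW : x ∈ W := ⟨mem_chart_source E x, by simpa using hr⟩
    obtain ⟨z₀, hz₀W, hz₀Z⟩ := mem_closure_iff.mp hx W hWo hxW
    have key : ∀ z ∈ W, s z = 0 := by
      have hv : ∀ v : ι → E, ∀ u ∈ Metric.ball (e x) r,
          s (e.symm u) (fun i => toT x (e.symm u) (v i)) = 0 := by
        intro v
        refine ball_ident (g := fun u => s (e.symm u) (fun i => toT x (e.symm u) (v i))) ?_
          (a := e z₀) hz₀W.2 ?_
        · have h1 := hs x v
          have h2 : MDifferentiableOn 𝓘(ℂ, E) 𝓘(ℂ, E) (e.symm) e.target :=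
            mdifferentiableOn_atlas_symm (chart_mem_atlas E x)
          have h3 : MDifferentiableOn 𝓘(ℂ, E) 𝓘(ℂ)
              (fun u => s (e.symm u) (fun i => toT x (e.symm u) (v i))) e.target := by
            intro u hu
            exact (h1 (e.symm u) (e.map_target hu)).comp u (h2 u hu)
              (fun w hw => e.map_target hw)
          exact (mdifferentiableOn_iff_differentiableOn.mp h3).mono hball
        · have h4 : Filter.Tendsto e.symm (𝓝 (e z₀)) (𝓝 z₀) := by
            have h5 := e.symm.continuousAt (x := e z₀)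
              (by simpa using e.map_source hz₀W.1)
            have h6 : e.symm (e z₀) = z₀ := e.left_inv hz₀W.1
            have h7 := h5.tendsto
            rwa [h6] at h7
          filter_upwards [h4.eventually hz₀Z] with u hu
          rw [hu]; rfl
      intro z hz
      ext w
      have h8 := hv (fun i => ofT x z (w i)) (e z) hz.2
      rw [e.left_inv hz.1] at h8
      have h9 : (fun i => toT x z (ofT x z (w i))) = w := by
        funext i
        exact toT_ofT hz.1 _
      rw [h9] at h8
      simpa using h8
    exact Filter.mem_of_superset (hWo.mem_nhds hxW) key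
  have hZu : Z = univ := IsClopen.eq_univ ⟨hZc, hZo⟩ ⟨x₁, h0⟩
  funext x
  have : x ∈ Z := by rw [hZu]; trivial
  exact this.self_of_nhds

end MP_d4c35b_ag.TG
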