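import Pool.Agent.Lib.MP_d4c35b_ag.TG.Ident

set_option linter.unusedSectionVars false

open scoped Manifold ContDiff Topology
open Function Set

namespace MP_d4c35b_ag.TG

variable {E : Type} [NormedAddCommGroup E] [NormedSpace ℂ E] [FiniteDimensional ℂ E]
variable {X : Type} [TopologicalSpace X] [ChartedSpace E X] [IsManifold 𝓘(ℂ, E) ω X]

theorem gen_nhds {k : ℕ} {x₀ : X} (hG : GG (E := E) k x₀) :
    ∀ᶠ x in 𝓝 x₀, ∀ m : MM E (Fin k),
      (∀ τ : X → MM E (Fin k) →ₗ[ℂ] ℂ, HK τ → τ x m = 0) → m = 0 := by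
  classical
  set b := Module.finBasis ℂ E with hb
  choose τ hτ hτ0 using fun I : Fin k → Fin (Module.finrank ℂ E) => hG (fun i => b (I i))
  set M : X → Matrix (Fin k → Fin (Module.finrank ℂ E)) (Fin k → Fin (Module.finrank ℂ E)) ℂ :=
    fun x I J => τ I x ((EI b J).compLinearMap (fun _ => (ofT x₀ x : E →L[ℂ] E).toLinearMap))
    with hM
  have hM0 : M x₀ = 1 := by
    ext I J
    simp only [hM]
    rw [hτ0, MultilinearMap.compLinearMap_apply]
    have h1 : (fun i => ((ofT x₀ x₀ : E →L[ℂ] E).toLinearMap) (b (I i))) = fun i => b (I i) := by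
      funext i
      exact ofT_self _
    rw [h1, EI_apply, Matrix.one_apply]
    by_cases hIJ : I = J
    · subst hIJ
      simp
    · rw [if_neg hIJ]
      obtain ⟨i, hi⟩ : ∃ i, I i ≠ J i := by
        by_contra hcon
        push Not at hcon
        exact hIJ (funext hcon)
      refine Finset.prod_eq_zero (Finset.mem_univ i) ?_
      simp [Module.Basis.coord_apply, hi]
  have hcont : ContinuousAt (fun x => (M x).det) x₀ := by
    have h2 : ∀ I J, ContinuousAt (fun x => M x I J) x₀ := fun I J =>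
      ((HK_iff.mp (hτ I) x₀) (EI b J)).continuousAt
    simp only [Matrix.det_apply']
    refine tendsto_finsetSum _ fun σ _ => ?_
    refine Filter.Tendsto.mul tendsto_const_nhds ?_
    exact tendsto_finsetProd _ fun i _ => h2 _ _
  have hne : ∀ᶠ x in 𝓝 x₀, (M x).det ≠ 0 := by
    refine hcont.eventually_ne ?_
    rw [hM0]; simp
  filter_upwards [hne, (chartAt E x₀).open_source.mem_nhds (mem_chart_source E x₀)] with x hx hxs
  intro m hm
  have hexp := mm_exp b m (toT x₀ x : E →L[ℂ] E).toLinearMap (ofT x₀ x : E →L[ℂ] E).toLinearMap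
    (fun v => toT_ofT hxs v)
  set c : (Fin k → Fin (Module.finrank ℂ E)) → ℂ :=
    fun J => m (fun i => (toT x₀ x : E →L[ℂ] E).toLinearMap (b (J i))) with hc
  have hmul : (M x).mulVec c = 0 := by
    ext I
    have h3 := hm (τ I) (hτ I)
    rw [hexp, map_sum] at h3
    rw [Matrix.mulVec, dotProduct]
    simp only [Pi.zero_apply]
    rw [← h3]
    refine Finset.sum_congr rfl fun J _ => ?_
    rw [map_smul, smul_eq_mul, mul_comm]
  have hc0 : c = 0 := Matrix.eq_zero_of_mulVec_eq_zero hx hmul
  rw [hexp]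
  refine Finset.sum_eq_zero fun J _ => ?_
  have h4 : m (fun i => (toT x₀ x : E →L[ℂ] E).toLinearMap (b (J i))) = 0 := congrFun hc0 J
  rw [h4, zero_smul]

theorem HC_const_empty [CompactSpace X] [ConnectedSpace X] {ι : Type} [IsEmpty ι]
    {s : X → MM E ι} (hs : HC s) (x y : X) : s x = s y := by
  have h1 : MDifferentiable 𝓘(ℂ, E) 𝓘(ℂ) (fun z => s z (fun i => isEmptyElim i)) := by
    intro z
    have h2 := (hs z (fun i => isEmptyElim i)).mdifferentiableAt
      ((chartAt E z).open_source.mem_nhds (mem_chart_source E z))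
    refine h2.congr_of_eventuallyEq (Filter.Eventually.of_forall fun w => ?_)
    change s w _ = s w _
    congr 1
    funext i
    exact isEmptyElim i
  have h3 := h1.apply_eq_of_compactSpace x y
  ext v
  have hv : v = fun i => isEmptyElim i := funext fun i => isEmptyElim i
  rw [hv]
  exact h3

/-- INJ -/
theorem inj [CompactSpace X] [ConnectedSpace X] {k : ℕ} {x₀ : X} (hG : GG (E := E) k x₀) :
    ∀ (m : ℕ) (ι : Type) [Fintype ι], Fintype.card ι = m * k →
      ∀ s : X → MM E ι, HC s → ∀ y, s y = 0 → s = 0 := by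
  classical
  intro m
  induction m with
  | zero =>
    intro ι _ hc s hs y hy
    rw [zero_mul] at hc
    have : IsEmpty ι := Fintype.card_eq_zero_iff.mp hc
    funext x
    rw [HC_const_empty hs x y, hy]; rfl
  | succ m ih =>
    intro ι _ hc s hs y hy
    have hcard : Fintype.card ι = Fintype.card (Fin (m * k) ⊕ Fin k) := by
      rw [hc, Fintype.card_sum, Fintype.card_fin, Fintype.card_fin]; ring
    obtain ⟨e⟩ : Nonempty (ι ≃ Fin (m * k) ⊕ Fin k) := Fintype.card_eq.mp hcard
    set t := reix e s with ht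
    have hts : HC t := HC_reix e hs
    have hty : t y = 0 := by
      simp only [ht, reix, hy]; rfl
    have h1 : ∀ τ : X → MM E (Fin k) →ₗ[ℂ] ℂ, HK τ → ctr t τ = 0 := by
      intro τ hτ
      refine ih (Fin (m * k)) (by simp) (ctr t τ) (HC_ctr hts hτ) y ?_
      ext v
      rw [ctr_apply, hty]
      have : (0 : MM E (Fin (m * k) ⊕ Fin k)).currySum v = 0 := rfl
      rw [this, map_zero]; rfl
    have h2 : ∀ᶠ x in 𝓝 x₀, t x = 0 := by
      filter_upwards [gen_nhds hG] with x hx
      ext v
      have h3 : (t x).currySum (fun i => v (Sum.inl i)) = 0 := by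
        refine hx _ fun τ hτ => ?_
        have h4 := congrFun (h1 τ hτ) x
        have h5 := congrArg (fun f => f (fun i => v (Sum.inl i))) h4
        exact h5
      have h6 := congrArg (fun f => f (fun j => v (Sum.inr j))) h3
      simp only [MultilinearMap.currySum_apply'] at h6
      have h7 : (Sum.elim (fun i => v (Sum.inl i)) fun j => v (Sum.inr j)) = v := by
        funext i; cases i <;> rfl
      rw [h7] at h6
      exact h6
    have h8 : t = 0 := HC_ident hts h2
    funext x
    ext v
    have h9 := congrArg (fun f => f (fun j => v (e.symm j))) (congrFun h8 x)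
    have h10 : t x (fun j => v (e.symm j)) = s x v := by
      change s x (fun i => v (e.symm (e i))) = s x v
      congr 1
      funext i
      rw [e.symm_apply_apply]
    have h11 : t x (fun j => v (e.symm j)) = 0 := h9
    rw [← h10, h11]; rfl

theorem inj' [CompactSpace X] [ConnectedSpace X] {k : ℕ} {x₀ : X} (hG : GG (E := E) k x₀)
    {ι : Type} [Fintype ι] (hk : k ∣ Fintype.card ι) {s : X → MM E ι} (hs : HC s) {y : X}
    (hy : s y = 0) : s = 0 := by
  obtain ⟨m, hm⟩ := hk
  exact inj hG m ι (by rw [hm, mul_comm]) s hs y hy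

/-- CON -/
theorem con {k : ℕ} {x₀ : X} (hG : GG (E := E) k x₀) :
    ∀ (m : ℕ) (ι κ : Type) [Fintype ι] [Fintype κ], Fintype.card κ = m * k →
      ∀ s : X → MM E (ι ⊕ κ), HC s → ∀ w : κ → E,
        ∃ θ : X → MM E ι, HC θ ∧ ∀ v : ι → E, θ x₀ v = s x₀ (Sum.elim v w) := by
  classical
  intro m
  induction m with
  | zero =>
    intro ι κ _ _ hc s hs w
    rw [zero_mul] at hc
    have : IsEmpty κ := Fintype.card_eq_zero_iff.mp hc
    refine ⟨reix (Equiv.sumEmpty ι κ) s, HC_reix _ hs, fun v => ?_⟩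
    rw [reix_apply]
    congr 1
    funext i
    cases i with
    | inl i => rfl
    | inr j => exact isEmptyElim j
  | succ m ih =>
    intro ι κ _ _ hc s hs w
    have hcard : Fintype.card κ = Fintype.card (Fin (m * k) ⊕ Fin k) := by
      rw [hc, Fintype.card_sum, Fintype.card_fin, Fintype.card_fin]; ring
    obtain ⟨e⟩ : Nonempty (κ ≃ Fin (m * k) ⊕ Fin k) := Fintype.card_eq.mp hcard
    set e' : ι ⊕ κ ≃ (ι ⊕ Fin (m * k)) ⊕ Fin k :=
      (Equiv.sumCongr (Equiv.refl ι) e).trans (Equiv.sumAssoc ι (Fin (m * k)) (Fin k)).symm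
      with he'
    obtain ⟨τ, hτ, hτ0⟩ := hG (fun i => w (e.symm (Sum.inr i)))
    obtain ⟨θ, hθ, hθ0⟩ := ih ι (Fin (m * k)) (by simp) (ctr (reix e' s) τ)
      (HC_ctr (HC_reix e' hs) hτ) (fun i => w (e.symm (Sum.inl i)))
    refine ⟨θ, hθ, fun v => ?_⟩
    rw [hθ0, ctr_apply, hτ0, MultilinearMap.currySum_apply', reix_apply]
    congr 1
    funext i
    cases i with
    | inl i => simp [he']
    | inr j =>
      simp only [he', Equiv.trans_apply, Equiv.sumCongr_apply, Sum.map_inr, Sum.elim_inr]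
      cases h : e j with
      | inl a =>
        have : j = e.symm (Sum.inl a) := by rw [← h, Equiv.symm_apply_apply]
        simp [this]
      | inr a =>
        have : j = e.symm (Sum.inr a) := by rw [← h, Equiv.symm_apply_apply]
        simp [this]

theorem con' {k : ℕ} {x₀ : X} (hG : GG (E := E) k x₀) {ι κ : Type} [Fintype ι] [Fintype κ]
    (hk : k ∣ Fintype.card κ) {s : X → MM E (ι ⊕ κ)} (hs : HC s) (w : κ → E) :
    ∃ θ : X → MM E ι, HC θ ∧ ∀ v : ι → E, θ x₀ v = s x₀ (Sum.elim v w) := by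
  obtain ⟨m, hm⟩ := hk
  exact con hG m ι κ (by rw [hm, mul_comm]) s hs w

end MP_d4c35b_ag.TG
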