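import Pool.Agent.Lib.MP_d4c35b_ag.TG.Inj
import Pool.Agent.Lib.MP_d4c35b_ag.TG.Root

set_option linter.unusedSectionVars false

open scoped Manifold ContDiff Topology
open Function Set

namespace MP_d4c35b_ag.TG

variable {E : Type} [NormedAddCommGroup E] [NormedSpace ℂ E] [FiniteDimensional ℂ E]
variable {X : Type} [TopologicalSpace X] [ChartedSpace E X] [IsManifold 𝓘(ℂ, E) ω X]

/-- `k`-th tensor power of a multilinear form -/
noncomputable def powM (k : ℕ) {ι : Type} (m : MM E ι) : MM E (Fin k × ι) where
  toFun := fun v => ∏ i, m (fun j => v (i, j))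
  map_update_add' := by
    classical
    intro _ v ij a b
    obtain ⟨i0, j0⟩ := ij
    have h1 : ∀ (c : E) (i : Fin k), (fun j => Function.update v (i0, j0) c (i, j)) =
        if i = i0 then Function.update (fun j => v (i0, j)) j0 c else fun j => v (i, j) := by
      intro c i
      by_cases hi : i = i0
      · subst hi
        rw [if_pos rfl]
        funext j
        by_cases hj : j = j0
        · subst hj; simp
        · rw [Function.update_of_ne (by simpa using hj), Function.update_of_ne hj]
      · rw [if_neg hi]
        funext j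
        rw [Function.update_of_ne (by simp [hi])]
    have h2 : ∀ c : E, (∏ i, m (fun j => Function.update v (i0, j0) c (i, j))) =
        m (Function.update (fun j => v (i0, j)) j0 c) *
          ∏ i ∈ Finset.univ.erase i0, m (fun j => v (i, j)) := by
      intro c
      rw [← Finset.mul_prod_erase Finset.univ _ (Finset.mem_univ i0)]
      congr 1
      · rw [h1, if_pos rfl]
      · refine Finset.prod_congr rfl fun i hi => ?_
        rw [h1, if_neg (Finset.ne_of_mem_erase hi)]
    rw [h2, h2, h2, MultilinearMap.map_update_add, add_mul]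
  map_update_smul' := by
    classical
    intro _ v ij c a
    obtain ⟨i0, j0⟩ := ij
    have h1 : ∀ (c : E) (i : Fin k), (fun j => Function.update v (i0, j0) c (i, j)) =
        if i = i0 then Function.update (fun j => v (i0, j)) j0 c else fun j => v (i, j) := by
      intro c i
      by_cases hi : i = i0
      · subst hi
        rw [if_pos rfl]
        funext j
        by_cases hj : j = j0
        · subst hj; simp
        · rw [Function.update_of_ne (by simpa using hj), Function.update_of_ne hj]
      · rw [if_neg hi]
        funext j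
        rw [Function.update_of_ne (by simp [hi])]
    have h2 : ∀ c : E, (∏ i, m (fun j => Function.update v (i0, j0) c (i, j))) =
        m (Function.update (fun j => v (i0, j)) j0 c) *
          ∏ i ∈ Finset.univ.erase i0, m (fun j => v (i, j)) := by
      intro c
      rw [← Finset.mul_prod_erase Finset.univ _ (Finset.mem_univ i0)]
      congr 1
      · rw [h1, if_pos rfl]
      · refine Finset.prod_congr rfl fun i hi => ?_
        rw [h1, if_neg (Finset.ne_of_mem_erase hi)]
    rw [h2, h2, MultilinearMap.map_update_smul, smul_mul_assoc]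

theorem powM_apply (k : ℕ) {ι : Type} (m : MM E ι) (v : Fin k × ι → E) :
    powM k m v = ∏ i, m (fun j => v (i, j)) := rfl

theorem HC_pow (k : ℕ) {ι : Type} [Fintype ι] {s : X → MM E ι} (hs : HC s) :
    HC (fun x => powM k (s x)) := by
  rw [HC_iff]
  intro y v
  simp only [powM_apply]
  exact da_prod fun i => (HC_iff.mp hs y) (fun j => v (i, j))

variable [CompactSpace X] [ConnectedSpace X]

theorem ne_at {k : ℕ} (hk : 1 ≤ k) {x₀ : X} (hG : GG (E := E) k x₀) {ι : Type} [Fintype ι]
    {s : X → MM E ι} (hs : HC s) (h0 : s ≠ 0) (y : X) : s y ≠ 0 := by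
  intro hy
  have h1 : (fun x => powM k (s x)) = 0 := by
    refine inj' hG (by simp) (HC_pow k hs) (y := y) ?_
    ext v
    rw [powM_apply, hy]
    simp only [zero_apply, Finset.prod_const, Finset.card_univ, Fintype.card_fin]
    rw [zero_pow (by omega)]
  apply h0
  funext x
  ext v
  have h2 := congrArg (fun f => f (fun ij => v ij.2)) (congrFun h1 x)
  have h3 : powM k (s x) (fun ij => v ij.2) = 0 := h2
  rw [powM_apply] at h3
  simp only [Finset.prod_const, Finset.card_univ, Fintype.card_fin] at h3
  exact pow_eq_zero_iff (by omega) |>.mp h3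

theorem exists_theta {k : ℕ} (hk : 1 ≤ k) {x₀ : X} (hG : GG (E := E) k x₀) {p : ℕ}
    (hp : 1 ≤ p) {s : X → MM E (Fin p)} (hs : HC s) (h0 : s ≠ 0) :
    ∃ θ : X → MM E (Fin k), HC θ ∧ ∀ x, SymSq (θ x) ∧ θ x ≠ 0 := by
  classical
  set j : Fin p := ⟨0, by omega⟩ with hj
  set U := {i : Fin p // i = j}
  set ι' := {i : Fin p // ¬ i = j}
  set e := (Equiv.sumCompl (fun i : Fin p => i = j)).symm with he
  set t : X → MM E (U ⊕ ι') := reix e s with ht
  have htH : HC t := HC_reix _ hs
  have ht0 : t ≠ 0 := by
    intro h
    apply h0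
    funext x
    ext v
    have h1 := congrArg (fun f => f (fun i => v (e.symm i))) (congrFun h x)
    have h2 : t x (fun i => v (e.symm i)) = 0 := h1
    rw [ht, reix_apply] at h2
    have h3 : (fun i => v (e.symm (e i))) = v := by
      funext i
      rw [e.symm_apply_apply]
    rw [h3] at h2
    exact h2
  obtain ⟨v, hv⟩ : ∃ v, t x₀ v ≠ 0 := by
    by_contra hcon
    push Not at hcon
    exact ne_at hk hG htH ht0 x₀ (MultilinearMap.ext hcon)
  set w : ι' → E := fun i => v (Sum.inr i) with hw
  set f : E → ℂ := fun u => t x₀ (Sum.elim (fun _ => u) w) with hf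
  have hfv : f (v (Sum.inl default)) ≠ 0 := by
    have : (Sum.elim (fun _ => v (Sum.inl default)) w : U ⊕ ι' → E) = v := by
      funext i
      cases i with
      | inl i => simp only [Sum.elim_inl]; rw [Unique.eq_default i]
      | inr i => rfl
    rw [hf]
    simp only [this]
    exact hv
  obtain ⟨θ', hθ', hθ0'⟩ := con' hG (ι := Fin k × U) (κ := Fin k × ι') (by simp)
    (s := reix (Equiv.prodSumDistrib (Fin k) U ι') (fun x => powM k (t x)))
    (HC_reix _ (HC_pow k htH)) (fun ij => w ij.2)
  set θ : X → MM E (Fin k) := reix (Equiv.prodUnique (Fin k) U) θ' with hθ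
  have hθH : HC θ := HC_reix _ hθ'
  have hθ0 : ∀ u : Fin k → E, θ x₀ u = ∏ i, f (u i) := by
    intro u
    rw [hθ, reix_apply, hθ0', reix_apply, powM_apply]
    refine Finset.prod_congr rfl fun i _ => ?_
    rw [hf]
    congr 1
    funext a
    cases a with
    | inl a => simp
    | inr a => simp
  have hne : ∀ x, θ x ≠ 0 := by
    have h1 : θ ≠ 0 := by
      intro h
      have h2 := congrArg (fun f => f (fun _ => v (Sum.inl default))) (congrFun h x₀)
      have h3 : θ x₀ (fun _ => v (Sum.inl default)) = 0 := h2
      rw [hθ0] at h3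
      simp only [Finset.prod_const] at h3
      exact hfv (pow_eq_zero_iff (by simp; omega) |>.mp h3)
    exact ne_at hk hG hθH h1
  refine ⟨θ, hθH, fun x => ⟨?_, hne x⟩⟩
  intro σ v
  have hD : reix σ (mulF θ θ) - mulF θ θ = 0 := by
    have hH : HC (mulF θ θ) := HC_mulF hθH hθH
    refine inj' hG ?_ (HC_sub (HC_reix σ hH) hH) (y := x₀) ?_
    · simp only [Fintype.card_sum, Fintype.card_fin]
      exact ⟨2, by ring⟩
    · ext v
      rw [Pi.sub_apply, sub_apply, reix_apply, mulF_apply, mulF_apply, hθ0, hθ0, hθ0, hθ0]
      have h1 := Equiv.prod_comp σ (fun j => f (v j))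
      rw [Fintype.prod_sum_type, Fintype.prod_sum_type] at h1
      rw [h1]
      simp
  have h1 := congrArg (fun f => f v) (congrFun hD x)
  have h2 : reix σ (mulF θ θ) x v - mulF θ θ x v = 0 := h1
  rw [sub_eq_zero, reix_apply, mulF_apply, mulF_apply] at h2
  exact h2

end MP_d4c35b_ag.TG
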