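import Pool.Agent.Lib.MP_d4c35b_ag.TG.Cover
import Pool.Agent.Lib.MP_d4c35b_ag.TG.Theta
import Pool.Agent.Lib.MP_d4c35b_ag.TG.G1c

set_option linter.unusedSectionVars false

open scoped Manifold ContDiff Topology
open Function Set

namespace MP_d4c35b_ag.TG

theorem main (hLH : S_LH) (hTOP : S_TOP) : S_main := by
  classical
  intro E _ _ _ X _ _ _ k hk hG
  obtain ⟨Y, _, _, _, f, hf, hGY, hmax⟩ := exists_max hk hG
  refine ⟨Y, _, _, inferInstance, f, hf, ?_, ?_⟩
  · intro η hη y hy
    by_contra h0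
    obtain ⟨y₀, hy₀⟩ := hGY
    exact form_ne hk hy₀ hη h0 y hy
  · intro Z _ _ _ g hg p s hs
    obtain ⟨z₀, hz₀⟩ := GG_lift hg hGY
    -- polynomials in 1-forms of `Z` are polynomials in 1-forms of `Y`
    have hsub : PolySp E Z p ≤ Submodule.span ℂ {t : Z → MM E (Fin p) |
        ∃ η : Fin p → Y → E →ₗ[ℂ] ℂ, (∀ i, H1 (η i)) ∧ t = tp (fun i => pull1 g (η i))} := by
      refine Submodule.span_mono ?_
      rintro t ⟨η, hη, rfl⟩
      choose β hβ hβe using fun i => hmax Z g hg (η i) (hη i)
      exact ⟨β, hβ, by congr 1; funext i; exact hβe i⟩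
    by_cases hex : ∃ η : Z → E →ₗ[ℂ] ℂ, H1 η ∧ η ≠ 0
    · obtain ⟨η, hη, h0⟩ := hex
      exact hsub (g1 hk hz₀ hη h0 p hs)
    · rcases Nat.eq_zero_or_pos p with hp | hp
      · subst hp
        obtain ⟨z₁⟩ := (inferInstance : Nonempty Z)
        have h1 : s = (s z₁ (fun i => isEmptyElim i)) •
            tp (fun i : Fin 0 => pull1 g ((isEmptyElim i : Y → E →ₗ[ℂ] ℂ))) := by
          funext z
          ext v
          rw [HC_const_empty hs z z₁, Subsingleton.elim v (fun i => isEmptyElim i)]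
          simp [tp_apply]
        rw [h1]
        exact Submodule.smul_mem _ _ (Submodule.subset_span ⟨_, fun i => isEmptyElim i, rfl⟩)
      · have h1 : s = 0 := by
          by_contra h0
          obtain ⟨θ, hθ, hθs⟩ := exists_theta hk hz₀ hp hs h0
          obtain ⟨k', rfl⟩ : ∃ k', k = k' + 1 := ⟨k - 1, by omega⟩
          obtain ⟨W, _, _, _, h, hh, η, hη, hη0⟩ :=
            exists_cover hLH hTOP hθ (fun x => (hθs x).1) (fun x => (hθs x).2)
          obtain ⟨β, hβ, hβe⟩ := hmax W (g ∘ h) (etale_comp hg hh) η hη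
          apply hex
          refine ⟨pull1 g β, H1_pull1 hg hβ, ?_⟩
          intro h2
          apply hη0
          rw [hβe, pull1_comp hg hh, h2]
          funext w
          ext v
          rfl
        rw [h1]
        exact Submodule.zero_mem _

end MP_d4c35b_ag.TG
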