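import Pool.Agent.Lib.MP_d4c35b_ag.TG.Ops

set_option linter.unusedSectionVars false

open scoped Manifold ContDiff Topology
open Function Set

namespace MP_d4c35b_ag.TG

variable {E : Type} [NormedAddCommGroup E] [NormedSpace ℂ E] [FiniteDimensional ℂ E]
variable {X : Type} [TopologicalSpace X] [ChartedSpace E X] [IsManifold 𝓘(ℂ, E) ω X]
variable {Y : Type} [TopologicalSpace Y] [ChartedSpace E Y] [IsManifold 𝓘(ℂ, E) ω Y]

/-- the differential as an endomorphism of `E` -/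
noncomputable def dd (f : Y → X) (y : Y) : E →L[ℂ] E := mfderiv 𝓘(ℂ, E) 𝓘(ℂ, E) f y

theorem dd_chart {f : Y → X} {y : Y} (hf : ContMDiffAt 𝓘(ℂ, E) 𝓘(ℂ, E) ω f y) :
    ∃ A : Y → E →L[ℂ] E, MDifferentiableAt 𝓘(ℂ, E) 𝓘(ℂ, E →L[ℂ] E) A y ∧
      ∀ᶠ z in 𝓝 y, ∀ v, dd f z (toT y z v) = toT (f y) (f z) (A z v) := by
  have : IsManifold 𝓘(ℂ, E) (1 + 1) X := IsManifold.of_le (n := ω) le_top
  have : IsManifold 𝓘(ℂ, E) (1 + 1) Y := IsManifold.of_le (n := ω) le_top
  have : IsManifold 𝓘(ℂ, E) 1 X := IsManifold.of_le (n := ω) le_top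
  have : IsManifold 𝓘(ℂ, E) 1 Y := IsManifold.of_le (n := ω) le_top
  refine ⟨inTangentCoordinates 𝓘(ℂ, E) 𝓘(ℂ, E) id f (mfderiv 𝓘(ℂ, E) 𝓘(ℂ, E) f) y, ?_, ?_⟩
  · have h := ContMDiffAt.mfderiv_const (m := 1) hf (by exact le_top)
    exact h.mdifferentiableAt one_ne_zero
  · have h1 : ∀ᶠ z in 𝓝 y, f z ∈ (chartAt E (f y)).source :=
      hf.continuousAt.eventually ((chartAt E (f y)).open_source.mem_nhds (mem_chart_source E _))
    have h2 : ∀ᶠ z in 𝓝 y, z ∈ (chartAt E y).source :=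
      (chartAt E y).open_source.mem_nhds (mem_chart_source E _)
    filter_upwards [h1, h2] with z hz1 hz2 v
    have h3 := inTangentCoordinates_eq (I := 𝓘(ℂ, E)) (I' := 𝓘(ℂ, E)) id f
      (fun z => (mfderiv 𝓘(ℂ, E) 𝓘(ℂ, E) f z : E →L[ℂ] E)) (x₀ := y) (x := z) hz2 hz1
    have h4 : inTangentCoordinates 𝓘(ℂ, E) 𝓘(ℂ, E) id f (mfderiv 𝓘(ℂ, E) 𝓘(ℂ, E) f) y z v =
        ofT (f y) (f z) (dd f z (toT y z v)) := by
      exact congrArg (fun L : E →L[ℂ] E => L v) h3
    rw [h4, toT_ofT hz1]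

/-- pull back of a 1-form -/
theorem H1at_pull1 {f : Y → X} {y : Y} (hf : ContMDiffAt 𝓘(ℂ, E) 𝓘(ℂ, E) ω f y)
    {β : X → E →ₗ[ℂ] ℂ} (hβ : H1at β (f y)) : H1at (pull1 f β) y := by
  obtain ⟨A, hA, hAe⟩ := dd_chart hf
  intro v
  have h1 := da_H1 hβ (hf.mdifferentiableAt (by simp)) (c := fun z => A z v)
    (hA.clm_apply mdifferentiableAt_const)
  refine h1.congr_of_eventuallyEq ?_
  filter_upwards [hAe] with z hz
  change β (f z) (dd f z (toT y z v)) = _
  rw [hz]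

theorem HCat_pullC {ι : Type} [Fintype ι] {f : Y → X} {y : Y}
    (hf : ContMDiffAt 𝓘(ℂ, E) 𝓘(ℂ, E) ω f y)
    {s : X → MM E ι} (hs : HCat s (f y)) : HCat (pullC f s) y := by
  obtain ⟨A, hA, hAe⟩ := dd_chart hf
  intro v
  have h1 := da_HC hs (hf.mdifferentiableAt (by simp)) (c := fun z i => A z (v i))
    (fun i => hA.clm_apply mdifferentiableAt_const)
  refine h1.congr_of_eventuallyEq ?_
  filter_upwards [hAe] with z hz
  change s (f z) (fun i => dd f z (toT y z (v i))) = _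
  congr 1
  funext i
  rw [hz]

theorem H1_pull1 {f : Y → X} (hf : Etale E f) {β : X → E →ₗ[ℂ] ℂ} (hβ : H1 β) :
    H1 (pull1 f β) :=
  H1_iff.mpr fun y => H1at_pull1 (hf y).contMDiffAt (H1_iff.mp hβ (f y))

theorem HC_pullC {ι : Type} [Fintype ι] {f : Y → X} (hf : Etale E f) {s : X → MM E ι}
    (hs : HC s) : HC (pullC f s) :=
  HC_iff.mpr fun y => HCat_pullC (hf y).contMDiffAt (HC_iff.mp hs (f y))

/-- the differential of an etale map is invertible -/
theorem dd_inv {f : Y → X} {y : Y} (hf : IsLocalDiffeomorphAt 𝓘(ℂ, E) 𝓘(ℂ, E) ω f y) :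
    ∃ g : X → Y, ContMDiffAt 𝓘(ℂ, E) 𝓘(ℂ, E) ω g (f y) ∧ g (f y) = y ∧
      (∀ᶠ z in 𝓝 y, g (f z) = z ∧ (∀ v : E, dd g (f z) (dd f z v) = v) ∧
        ∀ v : E, dd f z (dd g (f z) v) = v) := by
  obtain ⟨Φ, hy, he⟩ := hf
  have hΦy : f y = Φ y := he hy
  refine ⟨Φ.symm, ?_, ?_, ?_⟩
  · rw [hΦy]
    have h1 := Φ.symm.contMDiffOn_toFun
    exact h1.contMDiffAt (Φ.open_target.mem_nhds (Φ.map_source hy))
  · rw [hΦy]; exact Φ.left_inv hy
  · filter_upwards [Φ.open_source.mem_nhds hy] with z hz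
    have hfz : f z = Φ z := he hz
    have hgz : Φ.symm (f z) = z := by rw [hfz]; exact Φ.left_inv hz
    have hg : MDifferentiableAt 𝓘(ℂ, E) 𝓘(ℂ, E) Φ.symm (f z) := by
      rw [hfz]
      exact Φ.symm.mdifferentiableAt (by simp) (Φ.map_source hz)
    have hfm : MDifferentiableAt 𝓘(ℂ, E) 𝓘(ℂ, E) f z := by
      have h1 := Φ.mdifferentiableAt (by simp) hz
      exact h1.congr_of_eventuallyEq (Filter.eventuallyEq_of_mem (Φ.open_source.mem_nhds hz) he)
    have h1 : (Φ.symm ∘ f) =ᶠ[𝓝 z] id := by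
      filter_upwards [Φ.open_source.mem_nhds hz] with u hu
      change Φ.symm (f u) = u
      rw [he hu]; exact Φ.left_inv hu
    have h2 : (f ∘ Φ.symm) =ᶠ[𝓝 (f z)] id := by
      have h3 : f z ∈ Φ.target := by rw [hfz]; exact Φ.map_source hz
      filter_upwards [Φ.open_target.mem_nhds h3] with u hu
      exact (he (Φ.map_target hu)).trans (Φ.right_inv hu)
    refine ⟨hgz, ?_, ?_⟩
    · intro v
      have h3 := mfderiv_comp z hg hfm
      have h4 := h1.mfderiv_eq (I := 𝓘(ℂ, E)) (I' := 𝓘(ℂ, E))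
      rw [h3] at h4
      have h5 := congrArg (fun L : E →L[ℂ] E => L v) (h4.trans mfderiv_id)
      exact h5
    · intro v
      have hfm' : MDifferentiableAt 𝓘(ℂ, E) 𝓘(ℂ, E) f (Φ.symm (f z)) := by rw [hgz]; exact hfm
      have h3 := mfderiv_comp (f z) hfm' hg
      have h4 := h2.mfderiv_eq (I := 𝓘(ℂ, E)) (I' := 𝓘(ℂ, E))
      rw [h3] at h4
      have h5 := congrArg (fun L : E →L[ℂ] E => L v) (h4.trans mfderiv_id)
      have h6 : dd f (Φ.symm (f z)) (dd Φ.symm (f z) v) = v := h5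
      rwa [hgz] at h6

theorem dd_surj {f : Y → X} {y : Y} (hf : IsLocalDiffeomorphAt 𝓘(ℂ, E) 𝓘(ℂ, E) ω f y) :
    Surjective (dd (E := E) f y) := by
  obtain ⟨g, -, -, h⟩ := dd_inv hf
  intro v
  exact ⟨_, h.self_of_nhds.2.2 v⟩

/-- the inverse of the differential -/
noncomputable def di (f : Y → X) (y : Y) : E →L[ℂ] E := (dd f y).inverse

theorem di_eq {f : Y → X} {y : Y} {g : E →L[ℂ] E} (h1 : ∀ v, g (dd f y v) = v)
    (h2 : ∀ v, dd f y (g v) = v) : di f y = g := by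
  have h : dd f y = (ContinuousLinearEquiv.equivOfInverse (dd f y) g h1 h2 : E →L[ℂ] E) := by
    ext v; rfl
  unfold di
  rw [h, ContinuousLinearMap.inverse_equiv]
  rfl

/-- `T_X^{⊗k}` is globally generated at a point of the etale cover -/
theorem GG_pull {f : Y → X} (hf : Etale E f) {k : ℕ} {y : Y} (hG : GG (E := E) k (f y)) :
    GG (E := E) k y := by
  intro v
  obtain ⟨τ, hτ, hτ0⟩ := hG (fun i => dd f y (v i))
  refine ⟨fun z =>
    { toFun := fun m => τ (f z) (m.compLinearMap (fun _ => (di f z : E →L[ℂ] E).toLinearMap))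
      map_add' := fun a b => by rw [← map_add]; rfl
      map_smul' := fun c a => by rw [RingHom.id_apply, ← map_smul]; rfl }, ?_, ?_⟩
  · rw [HK_iff]
    intro y m
    obtain ⟨g, hg, hgy, hge⟩ := dd_inv (hf y)
    obtain ⟨B, hB, hBe⟩ := dd_chart hg
    rw [hgy] at hBe
    have hfc : ContinuousAt f y := (hf y).contMDiffAt.continuousAt
    have hBe' := hfc.eventually hBe
    have hfm : MDifferentiableAt 𝓘(ℂ, E) 𝓘(ℂ, E) f y := (hf y).mdifferentiableAt (by simp)
    have h1 := da_HK (HK_iff.mp hτ (f y)) hfm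
      (m := fun z => m.compLinearMap (fun _ => (B (f z) : E →L[ℂ] E).toLinearMap))
      (fun w => mm_da m (fun i => by
        have h2 : MDifferentiableAt 𝓘(ℂ, E) 𝓘(ℂ, E →L[ℂ] E) (fun z => B (f z)) y :=
          hB.comp y hfm
        exact h2.clm_apply mdifferentiableAt_const))
    refine h1.congr_of_eventuallyEq ?_
    have h3 : ∀ᶠ z in 𝓝 y, f z ∈ (chartAt E (f y)).source :=
      hfc.eventually ((chartAt E (f y)).open_source.mem_nhds (mem_chart_source E _))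
    have h4 : ∀ᶠ z in 𝓝 y, z ∈ (chartAt E y).source :=
      (chartAt E y).open_source.mem_nhds (mem_chart_source E _)
    filter_upwards [hge, hBe', h3, h4] with z hz hBz hz1 hz2
    have h5 : di f z = dd g (f z) := di_eq hz.2.1 hz.2.2
    change τ (f z) ((m.compLinearMap (fun _ => (ofT y z : E →L[ℂ] E).toLinearMap)).compLinearMap
      (fun _ => (di f z : E →L[ℂ] E).toLinearMap)) = _
    congr 1
    ext w
    simp only [MultilinearMap.compLinearMap_apply, ContinuousLinearMap.coe_coe]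
    congr 1
    funext i
    rw [h5]
    have h6 := hBz (ofT (f y) (f z) (w i))
    rw [toT_ofT hz1, hz.1] at h6
    rw [h6, ofT_toT hz2]
  · intro m
    have h1 := hτ0 (m.compLinearMap (fun _ => (di f y : E →L[ℂ] E).toLinearMap))
    refine h1.trans ?_
    simp only [MultilinearMap.compLinearMap_apply, ContinuousLinearMap.coe_coe]
    congr 1
    funext i
    obtain ⟨g, -, -, hge⟩ := dd_inv (hf y)
    have h2 := hge.self_of_nhds
    rw [di_eq h2.2.1 h2.2.2, h2.2.1]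

end MP_d4c35b_ag.TG
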