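import Mathlib

/-!
Definitions used in the hand-in of MP_d4c35b_ag (compact complex manifolds such that a tensor power
of the tangent bundle is generically globally generated).

Complex manifolds are Mathlib manifolds modelled on a finite-dimensional complex vector space `E`
(`IsManifold 𝓘(ℂ, E) ω X`), with Mathlib's tangent spaces `TangentSpace 𝓘(ℂ, E) x`.
-/

set_option autoImplicit false

open scoped Manifold ContDiff TensorProduct
open Set

namespace MP_d4c35b_ag.Read

section Fields

variable (E : Type) [NormedAddCommGroup E] [NormedSpace ℂ E]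
  (X : Type) [TopologicalSpace X] [ChartedSpace E X]

/-- Vector fields (not necessarily continuous). -/
abbrev Field : Type := (x : X) → TangentSpace 𝓘(ℂ, E) x

/-- Fields of covectors (not necessarily continuous). -/
abbrev Form : Type := (x : X) → (TangentSpace 𝓘(ℂ, E) x →ₗ[ℂ] ℂ)

/-- Covariant tensor fields of degree `p`, that is, sections of `(T_X^*)^{⊗p}`
(not necessarily continuous). -/
abbrev Cov (p : ℕ) : Type :=
  (x : X) → MultilinearMap ℂ (fun _ : Fin p => TangentSpace 𝓘(ℂ, E) x) ℂ

/-- Sections of `T_X^{⊗k}` (not necessarily continuous). -/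
abbrev Contra (k : ℕ) : Type := (x : X) → (⨂[ℂ] _ : Fin k, TangentSpace 𝓘(ℂ, E) x)

end Fields

section Holomorphic

variable {E : Type} [NormedAddCommGroup E] [NormedSpace ℂ E]
  {X : Type} [TopologicalSpace X] [ChartedSpace E X] [IsManifold 𝓘(ℂ, E) ω X]

/-- The vector field `V` is holomorphic on the open set `U`. -/
def HolField (U : Set X) (V : Field E X) : Prop :=
  MDifferentiableOn 𝓘(ℂ, E) 𝓘(ℂ, E).tangent (fun x => (⟨x, V x⟩ : TangentBundle 𝓘(ℂ, E) X)) U

/-- The 1-form `η` is holomorphic on the open set `U`: the function `η(V)` is holomorphic on `U'`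
for every open `U' ⊆ U` and every holomorphic vector field `V` on `U'`. -/
def HolForm (U : Set X) (η : Form E X) : Prop :=
  ∀ U' : Set X, IsOpen U' → U' ⊆ U → ∀ V : Field E X, HolField U' V →
    MDifferentiableOn 𝓘(ℂ, E) 𝓘(ℂ) (fun x => η x (V x)) U'

/-- The covariant tensor field `s` is holomorphic: the function `s(V_1, …, V_p)` is holomorphic on
`U` for every open set `U` and all holomorphic vector fields `V_1, …, V_p` on `U`. -/
def HolCov {p : ℕ} (s : Cov E X p) : Prop :=
  ∀ U : Set X, IsOpen U → ∀ V : Fin p → Field E X, (∀ i, HolField U (V i)) →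
    MDifferentiableOn 𝓘(ℂ, E) 𝓘(ℂ) (fun x => s x (fun i => V i x)) U

/-- The value of `α_1 ⊗ … ⊗ α_k` on the section `τ` of `T_X^{⊗k}`. -/
noncomputable def pairing {k : ℕ} (α : Fin k → Form E X) (τ : Contra E X k) (x : X) : ℂ :=
  PiTensorProduct.lift
    ((MultilinearMap.mkPiAlgebra ℂ (Fin k) ℂ).compLinearMap (fun i => α i x)) (τ x)

/-- The section `τ` of `T_X^{⊗k}` is holomorphic: its pairing with `α_1 ⊗ … ⊗ α_k` is holomorphic
on `U` for every open set `U` and all holomorphic 1-forms `α_1, …, α_k` on `U`. -/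
def HolContra {k : ℕ} (τ : Contra E X k) : Prop :=
  ∀ U : Set X, IsOpen U → ∀ α : Fin k → Form E X, (∀ i, HolForm U (α i)) →
    MDifferentiableOn 𝓘(ℂ, E) 𝓘(ℂ) (pairing α τ) U

/-- `T_X^{⊗k}` is generated at the point `x₀` by its global holomorphic sections. -/
def GeneratedAt (k : ℕ) (x₀ : X) : Prop :=
  ∀ t : (⨂[ℂ] _ : Fin k, TangentSpace 𝓘(ℂ, E) x₀), ∃ τ : Contra E X k, HolContra τ ∧ τ x₀ = t

end Holomorphic

section Maps

variable {E : Type} [NormedAddCommGroup E] [NormedSpace ℂ E]
  {Y : Type} [TopologicalSpace Y] [ChartedSpace E Y]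
  {F : Type} [NormedAddCommGroup F] [NormedSpace ℂ F]
  {A : Type} [TopologicalSpace A] [ChartedSpace F A]

/-- The pull-back `f^*η` of a 1-form. -/
noncomputable def pullForm (f : Y → A) (η : Form F A) : Form E Y :=
  fun y => (η (f y)).comp (mfderiv 𝓘(ℂ, E) 𝓘(ℂ, F) f y).toLinearMap

/-- The pull-back `f^*s` of a covariant tensor field. -/
noncomputable def pullCov {p : ℕ} (f : Y → A) (s : Cov F A p) : Cov E Y p :=
  fun y => (s (f y)).compLinearMap (fun _ => (mfderiv 𝓘(ℂ, E) 𝓘(ℂ, F) f y).toLinearMap)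

end Maps


/-- `X` is a compact connected complex manifold (Hausdorff, modelled on `E`). -/
class CptCplx (E : Type) [NormedAddCommGroup E] [NormedSpace ℂ E]
    (X : Type) [TopologicalSpace X] [ChartedSpace E X] : Prop where
  t2 : T2Space X
  compact : CompactSpace X
  connected : ConnectedSpace X
  manifold : IsManifold 𝓘(ℂ, E) ω X

attribute [instance] CptCplx.manifold

section Conclusions

variable (E : Type) [NormedAddCommGroup E] [NormedSpace ℂ E]

/-- `f` is locally biholomorphic.  For compact connected complex manifolds these maps are the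
finite étale covers. -/
def Etale {X : Type} [TopologicalSpace X] [ChartedSpace E X]
    {Y : Type} [TopologicalSpace Y] [ChartedSpace E Y] (f : Y → X) : Prop :=
  IsLocalDiffeomorph 𝓘(ℂ, E) 𝓘(ℂ, E) ω f

variable (Y : Type) [TopologicalSpace Y] [ChartedSpace E Y] [IsManifold 𝓘(ℂ, E) ω Y]

/-- A holomorphic 1-form on `Y` that vanishes at one point vanishes everywhere. -/
def NoZeros : Prop :=
  ∀ η : Form E Y, HolForm univ η → ∀ y : Y, (∀ v, η y v = 0) → ∀ (y' : Y) (v), η y' v = 0

variable {Y}

/-- The covariant tensor field `s` on `Z` is a polynomial with constant coefficients in the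
pull-backs under `g : Z → Y` of holomorphic 1-forms of `Y`:
`s(v_1, …, v_p) = ∑_j c_j ∏_i (g^*η_{ji})(v_i)`. -/
def IsPolynomial {Z : Type} [TopologicalSpace Z] [ChartedSpace E Z] (g : Z → Y) {p : ℕ}
    (s : Cov E Z p) : Prop :=
  ∃ (n : ℕ) (c : Fin n → ℂ) (η : Fin n → Fin p → Form E Y), (∀ j i, HolForm univ (η j i)) ∧
    ∀ z v, s z v = ∑ j, c j * ∏ i, pullForm g (η j i) z (v i)

variable (Y) in
/-- On every finite étale cover `g : Z → Y` all holomorphic covariant tensor fields are polynomials
in the pull-backs of holomorphic 1-forms of `Y`. -/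
def TensorsFromForms : Prop :=
  ∀ (Z : Type) [TopologicalSpace Z] [ChartedSpace E Z] [CptCplx E Z] (g : Z → Y), Etale E g →
    ∀ (p : ℕ) (s : Cov E Z p), HolCov s → IsPolynomial E g s

variable (F : Type) [NormedAddCommGroup F] [NormedSpace ℂ F]
  {A : Type} [TopologicalSpace A] [ChartedSpace F A] [IsManifold 𝓘(ℂ, F) ω A]

/-- The holomorphic map `α : Y → A` has these properties of an Albanese map: the cotangent spaces
of `A` are spanned by the global holomorphic 1-forms of `A`, and `α^*` is a bijection from the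
holomorphic 1-forms of `A` to those of `Y`. -/
def AlbaneseType (α : Y → A) : Prop :=
  ContMDiff 𝓘(ℂ, E) 𝓘(ℂ, F) ω α ∧
  (∀ (a : A) (ξ : TangentSpace 𝓘(ℂ, F) a →ₗ[ℂ] ℂ), ∃ ϖ : Form F A,
    HolForm univ ϖ ∧ ∀ v, ϖ a v = ξ v) ∧
  ∀ η : Form E Y, HolForm univ η → ∃! ϖ : Form F A, HolForm univ ϖ ∧ pullForm α ϖ = η

/-- `α` is a surjective submersion, and on every finite étale cover `g : Z → Y` all holomorphic
covariant tensor fields are pull-backs under `α ∘ g` of holomorphic ones on `A`. -/
def TensorsFromTarget (α : Y → A) : Prop :=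
  Function.Surjective α ∧ (∀ y : Y, Function.Surjective (mfderiv 𝓘(ℂ, E) 𝓘(ℂ, F) α y)) ∧
  ∀ (Z : Type) [TopologicalSpace Z] [ChartedSpace E Z] [CptCplx E Z] (g : Z → Y), Etale E g →
    ∀ (p : ℕ) (s : Cov E Z p), HolCov s → ∃ t : Cov F A p, HolCov t ∧ s = pullCov (α ∘ g) t

end Conclusions

end MP_d4c35b_ag.Read
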